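import Mathlib
import Pool.Agent.R945.LD.Border

set_option autoImplicit false

/-!
# A four parameter perturbation of a matrix with zero corner
-/

namespace Pool.Agent.H592LD

open Finset Matrix Pool.Agent.R945.LD

variable {m : ℕ} {R : Type*} [CommRing R]

/-- a rank one update in terms of a bordered determinant -/
lemma det_rank_one (w : R) (r u : Fin m → R) (N : Matrix (Fin m) (Fin m) R) :
    (Matrix.of fun j k => N j k + u j * r k * w).det = N.det - w * (bd 0 r u N).det := by
  have h1 := bd_schur r (fun j => (-w) * u j) N
  rw [bd_corner] at h1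
  have h2 := bd_scale (-w) 1 r u N
  simp only [one_mul] at h2
  rw [h2] at h1
  have h3 : (Matrix.of fun j k => N j k - (-w) * u j * r k) =
      Matrix.of fun j k => N j k + u j * r k * w := by
    ext j k
    simp only [Matrix.of_apply]
    ring
  rw [h3] at h1
  rw [← h1]
  ring

/-- the four parameter perturbation -/
theorem four_param (A : Matrix (Fin (m + 1)) (Fin (m + 1)) R) (h0 : A 0 0 = 0) (x y z w : R) :
    (Matrix.of fun i j => x + A i j + A i 0 * y + A 0 j * z + A i 0 * A 0 j * w).det =
      ((Matrix.of fun i j => A i j + 1).det - A.det) * x - A.det * (w * x - (y + 1) * (z + 1)) := by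
  set u : Fin m → R := fun j => A j.succ 0 with hu
  set r : Fin m → R := fun k => A 0 k.succ with hr
  set N : R → Matrix (Fin m) (Fin m) R := fun w => Matrix.of fun j k =>
    A j.succ k.succ - u j - r k + u j * r k * w with hN
  -- the general elimination
  have key : ∀ x y z w : R,
      (Matrix.of fun i j => x + A i j + A i 0 * y + A 0 j * z + A i 0 * A 0 j * w).det =
      x * (N w).det + (y + 1) * (z + 1) * (bd 0 r u (N w)).det := by
    intro x y z w
    have e : (Matrix.of fun i j => x + A i j + A i 0 * y + A 0 j * z + A i 0 * A 0 j * w) =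
        bd x (fun k => (z + 1) * r k + x) (fun j => (y + 1) * u j + x)
          (Matrix.of fun j k => (N w) j k + (y + 1) * u j + (z + 1) * r k + x) := by
      apply eq_bd
      · simp only [Matrix.of_apply, h0]; ring
      · intro k
        simp only [Matrix.of_apply, h0, hr]; ring
      · intro j
        simp only [Matrix.of_apply, h0, hu]; ring
      · intro j k
        simp only [Matrix.of_apply, hN, hu, hr]; ring
    rw [e, bd_elim, bd_corner, bd_scale]
  -- the bordered determinant
  have hbd : ∀ w : R, (bd 0 r u (N w)).det = (bd 0 r u (N 0)).det := by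
    intro w
    rw [bd_zero, bd_zero]
    have e1 : (Matrix.of fun j k => N w j k - u j * r k) =
        Matrix.of fun j k => N 0 j k + u j * r k * (w - 1) := by
      ext j k; simp only [hN, Matrix.of_apply]; ring
    have e2 : N w = Matrix.of fun j k => N 0 j k + u j * r k * w := by
      ext j k; simp only [hN, Matrix.of_apply]; ring
    have e3 : (Matrix.of fun j k => N 0 j k - u j * r k) =
        Matrix.of fun j k => N 0 j k + u j * r k * (-1) := by
      ext j k; simp only [Matrix.of_apply]; ring
    rw [e1, e3, e2, det_rank_one (w - 1) r u (N 0), det_rank_one (-1) r u (N 0),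
      det_rank_one w r u (N 0)]
    ring
  have hA : A.det = (bd 0 r u (N 0)).det := by
    have h := key 0 0 0 0
    have e : (Matrix.of fun i j => (0 : R) + A i j + A i 0 * 0 + A 0 j * 0 + A i 0 * A 0 j * 0) = A := by
      ext i j; simp
    rw [e] at h
    rw [h]; ring
  have hA1 : (Matrix.of fun i j => A i j + 1).det = (N 0).det + A.det := by
    have h := key 1 0 0 0
    have e : (Matrix.of fun i j => (1 : R) + A i j + A i 0 * 0 + A 0 j * 0 + A i 0 * A 0 j * 0) =
        Matrix.of fun i j => A i j + 1 := by
      ext i j; simp [add_comm]
    rw [e] at h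
    rw [h, hA]; ring
  have hNw : (N w).det = (N 0).det - w * A.det := by
    have e2 : N w = Matrix.of fun j k => N 0 j k + u j * r k * w := by
      ext j k; simp only [hN, Matrix.of_apply]; ring
    rw [e2, det_rank_one w r u (N 0), hA]
  rw [key, hbd, ← hA, hNw, hA1]
  ring

end Pool.Agent.H592LD
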