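import Mathlib
import Pool.Agent.R945.LD.Base
import Pool.Agent.R945.TP.V

set_option autoImplicit false

/-!
# The polynomials of the residues and of the nonresidues
-/

namespace Pool.Agent.H592LD

open Finset Polynomial Pool.Agent.Helper184.Chapman Pool.Agent.R945.TP

variable {p : ℕ} [Fact p.Prime]

/-- the polynomial with roots `ψ r`, `r` a residue -/
noncomputable def PR (p : ℕ) [Fact p.Prime] : ℂ[X] := ∏ r ∈ Rs p, (X - C (sc p r))

/-- the polynomial with roots `ψ n`, `n` a nonresidue -/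
noncomputable def PN (p : ℕ) [Fact p.Prime] : ℂ[X] := ∏ r ∈ Ns p, (X - C (sc p r))

lemma mem_Rs {r : ZMod p} : r ∈ Rs p ↔ quadraticChar (ZMod p) r = 1 := by simp [Rs]
lemma mem_Ns {r : ZMod p} : r ∈ Ns p ↔ quadraticChar (ZMod p) r = -1 := by simp [Ns]

lemma Rs_ne {r : ZMod p} (h : r ∈ Rs p) : r ≠ 0 := by
  rintro rfl
  rw [mem_Rs, MulChar.map_zero] at h
  norm_num at h

lemma Ns_ne {r : ZMod p} (h : r ∈ Ns p) : r ≠ 0 := by
  rintro rfl
  rw [mem_Ns, MulChar.map_zero] at h
  norm_num at h

lemma sc_ne (r : ZMod p) : sc p r ≠ 0 := by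
  intro h
  have h1 := AddChar.map_add_eq_mul (sc p) r (-r)
  rw [h, zero_mul, add_neg_cancel, AddChar.map_zero_eq_one] at h1
  exact one_ne_zero h1

lemma sc_inj {a b : ZMod p} (h : sc p a = sc p b) : a = b := by
  have h1 : sc p (a - b) = 1 := by
    rw [sub_eq_add_neg, AddChar.map_add_eq_mul, AddChar.map_neg_eq_inv, h]
    exact mul_inv_cancel₀ (sc_ne b)
  exact sub_eq_zero.1 ((sc_prim.zmod_char_eq_one_iff p (a - b)).1 h1)

lemma sc_pow (a : ZMod p) (j : ℕ) : sc p a ^ j = sc p (j * a) := by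
  rw [← AddChar.map_nsmul_eq_pow, nsmul_eq_mul]

lemma sc_pow_p (a : ZMod p) : sc p a ^ p = 1 := by
  rw [sc_pow]; simp

/-- sums over the residues and nonresidues -/
lemma sum_Rs_Ns {M : Type*} [AddCommMonoid M] (f : ZMod p → M) :
    ∑ r : ZMod p, f r = f 0 + (∑ r ∈ Rs p, f r + ∑ r ∈ Ns p, f r) := by
  rw [← Finset.add_sum_erase univ _ (Finset.mem_univ (0 : ZMod p)), R945.TP.erase_eq,
    Finset.sum_union disj]

lemma sum_chi_split (f : ZMod p → ℂ) :
    ∑ r : ZMod p, chi p ℂ r * f r = ∑ r ∈ Rs p, f r - ∑ r ∈ Ns p, f r := by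
  rw [sum_Rs_Ns, MulChar.map_zero, zero_mul, zero_add, sub_eq_add_neg, ← Finset.sum_neg_distrib]
  congr 1
  · refine Finset.sum_congr rfl fun r hr => ?_
    rw [chi_apply, mem_Rs.1 hr]; simp
  · refine Finset.sum_congr rfl fun r hr => ?_
    rw [chi_apply, mem_Ns.1 hr]; simp

/-- `∑ ψ(a r)` over all `r` -/
lemma sum_sc (a : ZMod p) : ∑ r : ZMod p, sc p (a * r) = if a = 0 then (p : ℂ) else 0 := by
  have h := AddChar.sum_mulShift a sc_prim
  rw [ZMod.card] at h
  push_cast at h
  rw [← h]
  exact Finset.sum_congr rfl fun r _ => by rw [mul_comm]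

/-- evaluation of a polynomial of degree `< 2 p` at the `p`-th roots of unity -/
lemma sum_eval (F : ℂ[X]) (hF : F.natDegree < 2 * p) :
    ∑ r : ZMod p, F.eval (sc p r) = p * (F.coeff 0 + F.coeff p) := by
  have hp : p.Prime := Fact.out
  have e1 : ∀ r : ZMod p, F.eval (sc p r) = ∑ i ∈ range (2 * p), F.coeff i * sc p (i * r) := by
    intro r
    rw [eval_eq_sum_range' hF]
    exact Finset.sum_congr rfl fun i _ => by rw [sc_pow]
  rw [Finset.sum_congr rfl (fun r _ => e1 r), Finset.sum_comm]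
  have e2 : ∀ i ∈ range (2 * p), ∑ r : ZMod p, F.coeff i * sc p (i * r) =
      (if i = 0 then p * F.coeff i else 0) + (if i = p then p * F.coeff i else 0) := by
    intro i hi
    rw [Finset.mem_range] at hi
    rw [← Finset.mul_sum, sum_sc]
    by_cases h0 : i = 0
    · subst h0
      rw [if_pos (by simp), if_pos rfl, if_neg hp.ne_zero.symm]; ring
    · by_cases hip : i = p
      · subst hip
        rw [if_pos (by simp), if_neg h0, if_pos rfl]; ring
      · have hne : ((i : ℕ) : ZMod p) ≠ 0 := by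
          intro h
          rw [ZMod.natCast_eq_zero_iff] at h
          obtain ⟨c, hc⟩ := h
          rcases Nat.lt_or_ge c 2 with h2 | h2
          · interval_cases c
            · exact h0 (by simpa using hc)
            · exact hip (by simpa using hc)
          · have := Nat.mul_le_mul_left p h2
            omega
        rw [if_neg hne, if_neg h0, if_neg hip]; ring
  rw [Finset.sum_congr rfl e2, Finset.sum_add_distrib, Finset.sum_ite_eq' (range (2 * p)) 0,
    Finset.sum_ite_eq' (range (2 * p)) p, if_pos (by rw [Finset.mem_range]; have := hp.pos; omega),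
    if_pos (by rw [Finset.mem_range]; have := hp.pos; omega)]
  ring

section deg

variable {m : ℕ} (hm : p = 2 * m + 1)

include hm

lemma card_R : (Rs p).card = m ∧ (Ns p).card = m := by
  have hp2 : p ≠ 2 := by omega
  have h1 := sum_Rs_Ns (p := p) (fun _ => (1 : ℤ))
  have h2 := sum_Rs_Ns (p := p) (fun r => (quadraticChar (ZMod p) r : ℤ))
  have hc : ringChar (ZMod p) ≠ 2 := by rwa [ZMod.ringChar_zmod_n]
  rw [quadraticChar_sum_zero hc, MulChar.map_zero, Finset.sum_congr rfl (fun r hr => mem_Rs.1 hr),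
    Finset.sum_congr rfl (fun r hr => mem_Ns.1 hr)] at h2
  simp at h1 h2
  omega

lemma PR_deg : (PR p).natDegree = m := by
  rw [PR, natDegree_prod_of_monic _ _ (fun r _ => monic_X_sub_C _)]
  simp [(card_R hm).1]

lemma PN_deg : (PN p).natDegree = m := by
  rw [PN, natDegree_prod_of_monic _ _ (fun r _ => monic_X_sub_C _)]
  simp [(card_R hm).2]

omit hm in
lemma PR_monic : (PR p).Monic := monic_prod_of_monic _ _ (fun r _ => monic_X_sub_C _)
omit hm in
lemma PN_monic : (PN p).Monic := monic_prod_of_monic _ _ (fun r _ => monic_X_sub_C _)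

/-- `(X - 1) P_R P_N = X ^ p - 1` -/
lemma PR_PN : (X - C 1) * PR p * PN p = X ^ p - 1 := by
  have hp : p.Prime := Fact.out
  have e1 : (X - C 1) * PR p * PN p = ∏ r : ZMod p, (X - C (sc p r)) := by
    rw [← Finset.mul_prod_erase univ _ (Finset.mem_univ (0 : ZMod p)), R945.TP.erase_eq,
      Finset.prod_union disj, AddChar.map_zero_eq_one, PR, PN, mul_assoc]
  rw [e1]
  have hmon : (∏ r : ZMod p, (X - C (sc p r))).Monic :=
    monic_prod_of_monic _ _ (fun r _ => monic_X_sub_C _)
  have hdeg : (∏ r : ZMod p, (X - C (sc p r))).natDegree = p := by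
    rw [natDegree_prod_of_monic _ _ (fun r _ => monic_X_sub_C _)]
    simp
  have hmon2 : (X ^ p - 1 : ℂ[X]).Monic := by
    have := monic_X_pow_sub_C (1 : ℂ) hp.ne_zero
    simpa using this
  have hdeg2 : (X ^ p - 1 : ℂ[X]).natDegree = p := by
    have := natDegree_X_pow_sub_C (n := p) (r := (1 : ℂ))
    simpa using this
  have hroot : ∀ r : ZMod p, (∏ r : ZMod p, (X - C (sc p r)) - (X ^ p - 1)).eval (sc p r) = 0 := by
    intro r
    rw [eval_sub, eval_prod, Finset.prod_eq_zero (Finset.mem_univ r) (by simp)]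
    simp [sc_pow_p]
  by_contra hne
  have hne' : ∏ r : ZMod p, (X - C (sc p r)) - (X ^ p - 1) ≠ 0 := sub_ne_zero.2 hne
  have hlt : (∏ r : ZMod p, (X - C (sc p r)) - (X ^ p - 1)).degree < ((p : ℕ) : WithBot ℕ) := by
    have h1 := degree_sub_lt_left (p := ∏ r : ZMod p, (X - C (sc p r))) (q := X ^ p - 1)
      (by rw [degree_eq_natDegree hmon.ne_zero, degree_eq_natDegree hmon2.ne_zero, hdeg, hdeg2])
      hmon.ne_zero (by rw [hmon.leadingCoeff, hmon2.leadingCoeff])
    rwa [degree_eq_natDegree hmon.ne_zero, hdeg] at h1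
  apply hne'
  apply eq_zero_of_degree_lt_of_eval_finset_eq_zero (univ.image (sc p))
  · rw [Finset.card_image_of_injective _ (fun a b h => sc_inj h), Finset.card_univ, ZMod.card]
    exact hlt
  · intro x hx
    obtain ⟨r, -, rfl⟩ := Finset.mem_image.1 hx
    exact hroot r

lemma eval_PR_PN (x : ℂ) : (x - 1) * (PR p).eval x * (PN p).eval x = x ^ p - 1 := by
  have := congrArg (eval x) (PR_PN hm)
  simpa using this

/-- `P_R(1) P_N(1) = p` -/
lemma PR_PN_one : (PR p).eval 1 * (PN p).eval 1 = p := by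
  have h := congrArg (fun F => (derivative F).eval 1) (PR_PN hm)
  simp only [mul_assoc, derivative_mul, derivative_sub, derivative_X, derivative_C, sub_zero, one_mul,
    eval_add, eval_mul, eval_sub, eval_X, eval_C, sub_self, zero_mul, add_zero, derivative_X_pow,
    derivative_one, eval_pow, one_pow, mul_one, eval_natCast] at h
  simpa using h

end deg

end Pool.Agent.H592LD
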