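import Mathlib
import Pool.Agent.H592LD.HKb
import Pool.Agent.R945.TP.F

set_option autoImplicit false

/-!
# Coefficients and interpolation for the polynomials of residues and nonresidues
-/

namespace Pool.Agent.H592LD

open Finset Polynomial Pool.Agent.Helper184.Chapman Pool.Agent.R945.TP

variable {p : ℕ} [Fact p.Prime]

/-- the Gauss sum -/
noncomputable def gg (p : ℕ) [Fact p.Prime] : ℂ := gaussSum (chi p ℂ) (sc p)

lemma gg_split (a : ZMod p) (hp2 : p ≠ 2) :
    chi p ℂ a * gg p = ∑ r ∈ Rs p, sc p (a * r) - ∑ r ∈ Ns p, sc p (a * r) := by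
  rw [gg, ← gshift hp2 two_ne_zero (sc p) a, sum_chi_split]

lemma sc_total (a : ZMod p) :
    ∑ r ∈ Rs p, sc p (a * r) + ∑ r ∈ Ns p, sc p (a * r) = (if a = 0 then (p : ℂ) else 0) - 1 := by
  rw [← sum_sc a, sum_Rs_Ns (fun r => sc p (a * r)), mul_zero, AddChar.map_zero_eq_one]
  ring

lemma gg_R (a : ZMod p) (hp2 : p ≠ 2) :
    gg p * chi p ℂ a = 2 * ∑ r ∈ Rs p, sc p (a * r) + 1 - (if a = 0 then (p : ℂ) else 0) := by
  have h1 := gg_split a hp2
  have h2 := sc_total a
  linear_combination h1 - h2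

lemma sum_N (hp2 : p ≠ 2) : 2 * ∑ r ∈ Ns p, sc p r = -1 - gg p := by
  have h1 := gg_split (1 : ZMod p) hp2
  have h2 := sc_total (1 : ZMod p)
  rw [if_neg one_ne_zero] at h2
  simp only [one_mul, map_one] at h1 h2
  linear_combination h2 + h1

lemma sc_sum (s : Finset (ZMod p)) : sc p (∑ r ∈ s, r) = ∏ r ∈ s, sc p r := by
  classical
  induction s using Finset.induction_on with
  | empty => simp
  | insert a s ha ih => rw [Finset.sum_insert ha, Finset.prod_insert ha, AddChar.map_add_eq_mul, ih]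

/-- the sum of the residues, and of the nonresidues, is zero modulo `p > 3` -/
lemma sum_zero_aux (c : ℤ) (hp2 : p ≠ 2) (hp3 : p ≠ 3) :
    ∑ r ∈ univ.filter (fun j : ZMod p => quadraticChar (ZMod p) j = c), r = 0 := by
  have hp : p.Prime := Fact.out
  have h2 : (2 : ZMod p) ≠ 0 := two_ne' hp2
  have h4 : quadraticChar (ZMod p) (4 : ZMod p) = 1 := by
    have : (4 : ZMod p) = 2 ^ 2 := by norm_num
    rw [this]
    exact quadraticChar_sq_one' h2
  have h40 : (4 : ZMod p) ≠ 0 := by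
    have : (4 : ZMod p) = 2 * 2 := by norm_num
    rw [this]
    exact mul_ne_zero h2 h2
  have h3 : (3 : ZMod p) ≠ 0 := by
    intro h
    have h1 : ((3 : ℕ) : ZMod p) = 0 := by exact_mod_cast h
    rw [ZMod.natCast_eq_zero_iff] at h1
    exact hp3 ((Nat.prime_dvd_prime_iff_eq hp Nat.prime_three).mp h1)
  set S := ∑ r ∈ univ.filter (fun j : ZMod p => quadraticChar (ZMod p) j = c), r with hS
  have h : 4 * S = S := by
    rw [hS, Finset.mul_sum]
    apply Finset.sum_bij (fun r _ => 4 * r)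
    · intro r hr
      rw [Finset.mem_filter] at hr ⊢
      exact ⟨Finset.mem_univ _, by rw [map_mul, h4, one_mul]; exact hr.2⟩
    · intro a _ b _ hab
      exact mul_left_cancel₀ h40 hab
    · intro b hb
      rw [Finset.mem_filter] at hb
      refine ⟨4⁻¹ * b, ?_, ?_⟩
      · rw [Finset.mem_filter]
        refine ⟨Finset.mem_univ _, ?_⟩
        rw [map_mul]
        have h5 : quadraticChar (ZMod p) (4 : ZMod p)⁻¹ = 1 := by
          have h6 : quadraticChar (ZMod p) (4 : ZMod p)⁻¹ * quadraticChar (ZMod p) 4 = 1 := by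
            rw [← map_mul, inv_mul_cancel₀ h40, map_one]
          rw [h4, mul_one] at h6
          exact h6
        rw [h5, one_mul]
        exact hb.2
      · rw [← mul_assoc, mul_inv_cancel₀ h40, one_mul]
    · intro r _; rfl
  have h7 : 3 * S = 0 := by linear_combination h
  rcases mul_eq_zero.1 h7 with h8 | h8
  · exact absurd h8 h3
  · exact h8

section

variable {m : ℕ} (hm : p = 2 * m + 1)

include hm

lemma prod_R (hp3 : p ≠ 3) : ∏ r ∈ Rs p, sc p r = 1 := by
  have hp2 : p ≠ 2 := by omega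
  rw [← sc_sum]
  have h : ∑ r ∈ Rs p, r = 0 := sum_zero_aux 1 hp2 hp3
  rw [h, AddChar.map_zero_eq_one]

lemma prod_N (hp3 : p ≠ 3) : ∏ r ∈ Ns p, sc p r = 1 := by
  have hp2 : p ≠ 2 := by omega
  rw [← sc_sum]
  have h : ∑ r ∈ Ns p, r = 0 := sum_zero_aux (-1) hp2 hp3
  rw [h, AddChar.map_zero_eq_one]

lemma PR_zero (hp3 : p ≠ 3) : (PR p).coeff 0 = (-1) ^ m := by
  rw [coeff_zero_eq_eval_zero, PR, eval_prod]
  simp only [eval_sub, eval_X, eval_C, zero_sub]
  have e : ∀ k ∈ Rs p, -sc p k = (-1) * sc p k := by intro k _; ring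
  rw [Finset.prod_congr rfl e, Finset.prod_mul_distrib, Finset.prod_const, (card_R hm).1,
    prod_R hm hp3, mul_one]

lemma PN_zero (hp3 : p ≠ 3) : (PN p).coeff 0 = (-1) ^ m := by
  rw [coeff_zero_eq_eval_zero, PN, eval_prod]
  simp only [eval_sub, eval_X, eval_C, zero_sub]
  have e : ∀ k ∈ Ns p, -sc p k = (-1) * sc p k := by intro k _; ring
  rw [Finset.prod_congr rfl e, Finset.prod_mul_distrib, Finset.prod_const, (card_R hm).2,
    prod_N hm hp3, mul_one]

lemma PN_large {n : ℕ} (h : m < n) : (PN p).coeff n = 0 :=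
  coeff_eq_zero_of_natDegree_lt (by rw [PN_deg hm]; omega)

lemma PN2_deg : (PN p * PN p).natDegree = 2 * m := by
  rw [PN_monic.natDegree_mul PN_monic, PN_deg hm]; ring

lemma PN2_top : (PN p * PN p).coeff (2 * m) = 1 := by
  have := (PN_monic.mul PN_monic : (PN p * PN p).Monic).coeff_natDegree
  rwa [PN2_deg hm] at this

lemma PN2_next (hm0 : 0 < m) : (PN p * PN p).coeff (2 * m - 1) = 1 + gg p := by
  have hp2 : p ≠ 2 := by omega
  have h1 : (PN p * PN p).nextCoeff = (PN p * PN p).coeff (2 * m - 1) := by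
    rw [nextCoeff_of_natDegree_pos (by rw [PN2_deg hm]; omega), PN2_deg hm]
  rw [← h1, PN_monic.nextCoeff_mul PN_monic]
  have h2 : (PN p).nextCoeff = - ∑ r ∈ Ns p, sc p r := by
    rw [PN, Polynomial.prod_X_sub_C_nextCoeff]
  rw [h2]
  have h3 := sum_N (p := p) hp2
  linear_combination -h3

/-- sums over the residues of a multiple of `P_N` -/
lemma sum_R_PN (F : ℂ[X]) (hF : (F * PN p).natDegree < 2 * p) :
    ∑ r ∈ Rs p, F.eval (sc p r) * (PN p).eval (sc p r) =
      p * ((F * PN p).coeff 0 + (F * PN p).coeff p) - F.eval 1 * (PN p).eval 1 := by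
  have h := sum_eval (F * PN p) hF
  rw [sum_Rs_Ns (fun r => (F * PN p).eval (sc p r))] at h
  have h0 : ∑ r ∈ Ns p, (F * PN p).eval (sc p r) = 0 := by
    apply Finset.sum_eq_zero
    intro r hr
    rw [eval_mul, PN, eval_prod, Finset.prod_eq_zero hr (by simp), mul_zero]
  rw [h0, add_zero, AddChar.map_zero_eq_one] at h
  simp only [eval_mul] at h
  rw [← h]
  ring

/-- the interpolation vector of the point `1` -/
noncomputable def L1 (p : ℕ) [Fact p.Prime] (r : ZMod p) : ℂ :=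
  -((PR p).eval 1 * (PN p).eval (sc p r) * sc p r) / p

/-- the interpolation vector of the point `0` -/
noncomputable def L0 (p m : ℕ) [Fact p.Prime] (r : ZMod p) : ℂ :=
  -((-1) ^ m * (PN p).eval (sc p r) * (sc p r - 1)) / p

omit hm in
lemma pC : (p : ℂ) ≠ 0 := by exact_mod_cast (Fact.out : p.Prime).ne_zero

lemma L1_interp (j : ℕ) (hj : j < m) : ∑ r ∈ Rs p, sc p r ^ j * L1 p r = 1 := by
  have hp0 : (p : ℂ) ≠ 0 := pC
  have h := sum_R_PN hm (X ^ (j + 1)) (by
    rw [natDegree_X_pow_mul _ PN_monic.ne_zero, PN_deg hm]; omega)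
  rw [coeff_X_pow_mul', if_neg (by omega), coeff_X_pow_mul', if_pos (by omega),
    PN_large hm (by omega)] at h
  simp only [eval_pow, eval_X, one_pow, one_mul, add_zero, mul_zero, zero_sub] at h
  have e : ∑ r ∈ Rs p, sc p r ^ j * L1 p r =
      -((PR p).eval 1) / p * ∑ r ∈ Rs p, sc p r ^ (j + 1) * (PN p).eval (sc p r) := by
    rw [Finset.mul_sum]
    refine Finset.sum_congr rfl fun r _ => ?_
    unfold L1
    rw [pow_succ]
    ring
  rw [e, h]
  have h1 := PR_PN_one (p := p) hm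
  field_simp
  linear_combination h1

lemma L0_interp (hp3 : p ≠ 3) (j : ℕ) (hj : j < m) :
    ∑ r ∈ Rs p, sc p r ^ j * L0 p m r = if j = 0 then 1 else 0 := by
  have hp0 : (p : ℂ) ≠ 0 := pC
  have hdeg : ((X ^ (j + 1) - X ^ j) * PN p : ℂ[X]).natDegree < 2 * p := by
    refine lt_of_le_of_lt natDegree_mul_le ?_
    have h1 : (X ^ (j + 1) - X ^ j : ℂ[X]).natDegree ≤ j + 1 := by
      refine (natDegree_sub_le _ _).trans ?_
      simp
    rw [PN_deg hm]
    omega
  have h := sum_R_PN hm (X ^ (j + 1) - X ^ j) hdeg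
  have hc : ∀ n : ℕ, ((X ^ (j + 1) - X ^ j) * PN p : ℂ[X]).coeff n =
      (if j + 1 ≤ n then (PN p).coeff (n - (j + 1)) else 0) -
        (if j ≤ n then (PN p).coeff (n - j) else 0) := by
    intro n
    rw [sub_mul, coeff_sub, coeff_X_pow_mul', coeff_X_pow_mul']
  rw [hc, hc, if_neg (by omega), if_pos (show j + 1 ≤ p by omega), if_pos (show j ≤ p by omega),
    PN_large hm (show m < p - (j + 1) by omega), PN_large hm (show m < p - j by omega)] at h
  simp only [eval_pow, eval_X, one_pow, eval_sub, sub_self, zero_mul, sub_zero, zero_sub] at h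
  have e : ∑ r ∈ Rs p, sc p r ^ j * L0 p m r =
      -((-1) ^ m) / p * ∑ r ∈ Rs p, (sc p r ^ (j + 1) - sc p r ^ j) * (PN p).eval (sc p r) := by
    rw [Finset.mul_sum]
    refine Finset.sum_congr rfl fun r _ => ?_
    unfold L0
    rw [pow_succ]
    ring
  rw [e, h]
  have h2 : ((-1 : ℂ)) ^ m * (-1) ^ m = 1 := by
    rw [← mul_pow]; simp
  by_cases hj0 : j = 0
  · subst hj0
    simp only [le_refl, if_true, Nat.sub_zero, PN_zero hm hp3, add_zero]
    field_simp
    linear_combination h2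
  · rw [if_neg (by omega), if_neg hj0]
    simp

lemma L1_L1 (hm0 : 0 < m) :
    ∑ r ∈ Rs p, L1 p r * L1 p r = (PR p).eval 1 ^ 2 * (1 + gg p) / p - 1 := by
  have hp0 : (p : ℂ) ≠ 0 := pC
  have hmon : (PN p * PN p).Monic := PN_monic.mul PN_monic
  have e0 : X ^ 2 * PN p * PN p = X ^ 2 * (PN p * PN p) := by ring
  have h := sum_R_PN hm (X ^ 2 * PN p) (by
    rw [e0, natDegree_X_pow_mul _ hmon.ne_zero, PN2_deg hm]; omega)
  rw [e0, coeff_X_pow_mul', if_neg (by omega), coeff_X_pow_mul', if_pos (by omega),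
    show p - 2 = 2 * m - 1 by omega, PN2_next hm hm0] at h
  simp only [eval_mul, eval_pow, eval_X, one_pow, one_mul, zero_add] at h
  have e : ∑ r ∈ Rs p, L1 p r * L1 p r =
      (PR p).eval 1 ^ 2 / p ^ 2 * ∑ r ∈ Rs p, sc p r ^ 2 * (PN p).eval (sc p r) * (PN p).eval (sc p r) := by
    rw [Finset.mul_sum]
    refine Finset.sum_congr rfl fun r _ => ?_
    unfold L1
    ring
  rw [e, h]
  have h1 := PR_PN_one (p := p) hm
  field_simp
  linear_combination (-(PR p).eval 1 * (PN p).eval 1 - p) * h1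

lemma L1_L0 (hm0 : 0 < m) :
    ∑ r ∈ Rs p, L1 p r * L0 p m r = (-1) ^ m * (PR p).eval 1 * gg p / p := by
  have hp0 : (p : ℂ) ≠ 0 := pC
  have e0 : (X ^ 2 - X ^ 1) * PN p * PN p = (X ^ 2 - X ^ 1) * (PN p * PN p) := by ring
  have hdeg : ((X ^ 2 - X ^ 1) * (PN p * PN p) : ℂ[X]).natDegree < 2 * p := by
    refine lt_of_le_of_lt natDegree_mul_le ?_
    have h1 : (X ^ 2 - X ^ 1 : ℂ[X]).natDegree ≤ 2 := by
      refine (natDegree_sub_le _ _).trans ?_
      simp
    rw [PN2_deg hm]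
    omega
  have h := sum_R_PN hm ((X ^ 2 - X ^ 1) * PN p) (by rw [e0]; exact hdeg)
  have hc : ∀ n : ℕ, ((X ^ 2 - X ^ 1) * (PN p * PN p) : ℂ[X]).coeff n =
      (if 2 ≤ n then (PN p * PN p).coeff (n - 2) else 0) -
        (if 1 ≤ n then (PN p * PN p).coeff (n - 1) else 0) := by
    intro n
    rw [sub_mul, coeff_sub, coeff_X_pow_mul', coeff_X_pow_mul']
  rw [e0, hc, hc, if_neg (by omega), if_neg (by omega), if_pos (by omega), if_pos (by omega),
    show p - 2 = 2 * m - 1 by omega, PN2_next hm hm0, show p - 1 = 2 * m by omega, PN2_top hm] at h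
  simp only [eval_mul, eval_sub, eval_pow, eval_X, one_pow, sub_self, zero_mul, sub_zero] at h
  have e : ∑ r ∈ Rs p, L1 p r * L0 p m r =
      (-1) ^ m * (PR p).eval 1 / p ^ 2 *
        ∑ r ∈ Rs p, (sc p r ^ 2 - sc p r ^ 1) * (PN p).eval (sc p r) * (PN p).eval (sc p r) := by
    rw [Finset.mul_sum]
    refine Finset.sum_congr rfl fun r _ => ?_
    unfold L1 L0
    ring
  rw [e, h]
  field_simp
  ring

lemma L0_L0 (hp3 : p ≠ 3) (hm0 : 0 < m) : ∑ r ∈ Rs p, L0 p m r * L0 p m r = gg p / p := by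
  have hp0 : (p : ℂ) ≠ 0 := pC
  have e0 : (X ^ 2 - C 2 * X ^ 1 + X ^ 0) * PN p * PN p =
      (X ^ 2 - C 2 * X ^ 1 + X ^ 0) * (PN p * PN p) := by ring
  have hdeg : ((X ^ 2 - C 2 * X ^ 1 + X ^ 0) * (PN p * PN p) : ℂ[X]).natDegree < 2 * p := by
    refine lt_of_le_of_lt natDegree_mul_le ?_
    have h1 : (X ^ 2 - C 2 * X ^ 1 + X ^ 0 : ℂ[X]).natDegree ≤ 2 := by
      refine (natDegree_add_le _ _).trans ?_
      have h2 : (X ^ 2 - C 2 * X ^ 1 : ℂ[X]).natDegree ≤ 2 := by
        refine (natDegree_sub_le _ _).trans ?_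
        have h3 : (C 2 * X ^ 1 : ℂ[X]).natDegree ≤ 1 := natDegree_C_mul_X_pow_le _ _
        simp only [natDegree_X_pow]
        omega
      simp only [natDegree_X_pow]
      omega
    rw [PN2_deg hm]
    omega
  have h := sum_R_PN hm ((X ^ 2 - C 2 * X ^ 1 + X ^ 0) * PN p) (by rw [e0]; exact hdeg)
  have hc : ∀ n : ℕ, ((X ^ 2 - C 2 * X ^ 1 + X ^ 0) * (PN p * PN p) : ℂ[X]).coeff n =
      (if 2 ≤ n then (PN p * PN p).coeff (n - 2) else 0) -
        2 * (if 1 ≤ n then (PN p * PN p).coeff (n - 1) else 0) + (PN p * PN p).coeff n := by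
    intro n
    rw [add_mul, sub_mul, coeff_add, coeff_sub, mul_assoc, coeff_C_mul, coeff_X_pow_mul',
      coeff_X_pow_mul', pow_zero, one_mul]
  have hlarge : (PN p * PN p).coeff p = 0 :=
    coeff_eq_zero_of_natDegree_lt (by rw [PN2_deg hm]; omega)
  have h2 : ((-1 : ℂ)) ^ m * (-1) ^ m = 1 := by
    rw [← mul_pow]; simp
  rw [e0, hc, hc, if_neg (by omega), if_neg (by omega), if_pos (by omega), if_pos (by omega),
    show p - 2 = 2 * m - 1 by omega, PN2_next hm hm0, show p - 1 = 2 * m by omega, PN2_top hm,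
    hlarge, mul_coeff_zero, PN_zero hm hp3, h2] at h
  simp only [eval_mul, eval_sub, eval_add, eval_pow, eval_X, eval_C, one_pow, pow_one, pow_zero,
    eval_one, mul_one] at h
  have e : ∑ r ∈ Rs p, L0 p m r * L0 p m r =
      1 / p ^ 2 * ∑ r ∈ Rs p, (sc p r ^ 2 - 2 * sc p r + 1) *
        (PN p).eval (sc p r) * (PN p).eval (sc p r) := by
    rw [Finset.mul_sum]
    refine Finset.sum_congr rfl fun r _ => ?_
    unfold L0
    linear_combination ((PN p).eval (sc p r) ^ 2 * (sc p r - 1) ^ 2 / p ^ 2) * h2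
  rw [e, h]
  field_simp
  ring

end

end Pool.Agent.H592LD
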