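import Mathlib
import Pool.Agent.H592LD.HKc

set_option autoImplicit false

/-!
# The discriminant of the polynomial of the residues
-/

namespace Pool.Agent.H592LD

open Finset Polynomial Pool.Agent.Helper184.Chapman Pool.Agent.R945.TP

/-- the product of all differences -/
lemma diff_prod {R : Type*} [CommRing R] (n : ℕ) (v : Fin n → R) :
    ∏ i, ∏ j, (if j = i then 1 else v i - v j) =
      (-1) ^ (n * (n - 1) / 2) * (Matrix.vandermonde v).det ^ 2 := by
  induction n with
  | zero => simp
  | succ n ih =>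
    have hv := Matrix.det_vandermonde v
    rw [Fin.prod_univ_succ, Fin.prod_Ioi_zero] at hv
    have hv2 : ∏ i : Fin n, ∏ j ∈ Ioi i.succ, (v j - v i.succ) =
        (Matrix.vandermonde (fun i : Fin n => v i.succ)).det := by
      rw [Matrix.det_vandermonde]
      refine Finset.prod_congr rfl fun i _ => ?_
      rw [Fin.prod_Ioi_succ]
    rw [hv2] at hv
    have h1 : ∏ i, ∏ j, (if j = i then 1 else v i - v j) =
        (∏ j : Fin n, (v 0 - v j.succ)) * ((∏ i : Fin n, (v i.succ - v 0)) *
          ∏ i : Fin n, ∏ j : Fin n, (if j = i then 1 else v i.succ - v j.succ)) := by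
      rw [Fin.prod_univ_succ, ← Finset.prod_mul_distrib]
      congr 1
      · rw [Fin.prod_univ_succ, if_pos rfl, one_mul]
        refine Finset.prod_congr rfl fun j _ => ?_
        rw [if_neg (Fin.succ_ne_zero j)]
      · refine Finset.prod_congr rfl fun i _ => ?_
        rw [Fin.prod_univ_succ, if_neg (Fin.succ_ne_zero i).symm]
        congr 1
        refine Finset.prod_congr rfl fun j _ => ?_
        by_cases h : j = i
        · subst h; simp
        · rw [if_neg h, if_neg (fun h' => h (Fin.succ_injective _ h'))]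
    have h2 : ∏ j : Fin n, (v 0 - v j.succ) = (-1) ^ n * ∏ i : Fin n, (v i.succ - v 0) := by
      have : ∀ j ∈ (univ : Finset (Fin n)), v 0 - v j.succ = (-1) * (v j.succ - v 0) := by
        intro j _; ring
      rw [Finset.prod_congr rfl this, Finset.prod_mul_distrib, Finset.prod_const]
      simp
    rw [h1, ih (fun i => v i.succ), h2, hv]
    have h3 : (n + 1) * (n + 1 - 1) / 2 = n + n * (n - 1) / 2 := by
      rcases Nat.eq_zero_or_pos n with h | h
      · subst h; rfl
      · obtain ⟨k, rfl⟩ : ∃ k, n = k + 1 := ⟨n - 1, by omega⟩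
        have e1 : (k + 1 + 1) * (k + 1 + 1 - 1) = 2 * (k + 1) + (k + 1) * (k + 1 - 1) := by
          simp only [Nat.add_sub_cancel]; ring
        rw [e1, Nat.mul_add_div (by norm_num)]
    rw [h3, pow_add]
    ring

variable {p : ℕ} [Fact p.Prime] {m : ℕ} (hm : p = 2 * m + 1)

/-- an enumeration of the residues -/
noncomputable def en : Fin m ≃ {r // r ∈ Rs p} := (Finset.equivFinOfCardEq (card_R hm).1).symm

/-- the points -/
noncomputable def xs (i : Fin m) : ℂ := sc p (en hm i : ZMod p)

lemma sum_en {M : Type*} [AddCommMonoid M] (f : ZMod p → M) : ∑ i, f (en hm i) = ∑ r ∈ Rs p, f r := by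
  rw [← Finset.sum_coe_sort (Rs p) f]
  exact Equiv.sum_comp (en hm) (fun r : {r // r ∈ Rs p} => f r)

lemma prod_en {M : Type*} [CommMonoid M] (f : ZMod p → M) : ∏ i, f (en hm i) = ∏ r ∈ Rs p, f r := by
  rw [← Finset.prod_coe_sort (Rs p) f]
  exact Equiv.prod_comp (en hm) (fun r : {r // r ∈ Rs p} => f r)

include hm

lemma deriv_root {r : ZMod p} (hr : r ∈ Rs p) :
    (∏ s ∈ (Rs p).erase r, (sc p r - sc p s)) * (sc p r - 1) * (PN p).eval (sc p r) =
      p * sc p r ^ (p - 1) := by
  have h1 : PR p = (X - C (sc p r)) * ∏ s ∈ (Rs p).erase r, (X - C (sc p s)) := by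
    rw [PR, Finset.mul_prod_erase _ (fun s => X - C (sc p s)) hr]
  have h2 := PR_PN (p := p) hm
  rw [h1] at h2
  have h3 := congrArg (fun F => (derivative F).eval (sc p r)) h2
  have h4 : (X - C 1) * ((X - C (sc p r)) * ∏ s ∈ (Rs p).erase r, (X - C (sc p s))) * PN p =
      (X - C (sc p r)) * ((∏ s ∈ (Rs p).erase r, (X - C (sc p s))) * (X - C 1) * PN p) := by ring
  rw [h4] at h3
  simp only [derivative_mul, derivative_sub, derivative_X, derivative_C, sub_zero, one_mul,
    eval_add, eval_mul, eval_sub, eval_X, eval_C, sub_self, zero_mul, add_zero, derivative_X_pow,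
    derivative_one, eval_pow, eval_natCast, eval_prod] at h3
  exact h3

/-- the resultant of the two polynomials -/
noncomputable def Res (p : ℕ) [Fact p.Prime] : ℂ := ∏ r ∈ Rs p, (PN p).eval (sc p r)

omit hm in
/-- the number of residues `r` with `r + c` a nonresidue -/
noncomputable def NN (p : ℕ) [Fact p.Prime] (c : ZMod p) : ℕ := ((Rs p).filter (fun r => r + c ∈ Ns p)).card

lemma Res_eq (hp3 : p ≠ 3) : Res p = ∏ c : ZMod p, (1 - sc p c) ^ NN p c := by
  unfold Res
  have h1 : ∀ r ∈ Rs p, (PN p).eval (sc p r) =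
      sc p r ^ m * ∏ c : ZMod p, (if r + c ∈ Ns p then 1 - sc p c else 1) := by
    intro r _
    rw [PN, eval_prod]
    simp only [eval_sub, eval_X, eval_C]
    have h2 : ∀ n ∈ Ns p, sc p r - sc p n = sc p r * (1 - sc p (n - r)) := by
      intro n _
      rw [mul_sub, mul_one, ← AddChar.map_add_eq_mul]
      congr 2
      ring
    rw [Finset.prod_congr rfl h2, Finset.prod_mul_distrib, Finset.prod_const, (card_R hm).2]
    congr 1
    rw [← Finset.prod_filter]
    symm
    apply Finset.prod_bij (fun c _ => r + c)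
    · intro c hc
      exact (Finset.mem_filter.1 hc).2
    · intro a _ b _ hab
      exact add_left_cancel hab
    · intro n hn
      refine ⟨n - r, ?_, by ring⟩
      rw [Finset.mem_filter]
      refine ⟨Finset.mem_univ _, ?_⟩
      have : r + (n - r) = n := by ring
      rw [this]; exact hn
    · intro c _
      congr 2
      ring
  rw [Finset.prod_congr rfl h1, Finset.prod_mul_distrib, Finset.prod_pow, prod_R hm hp3, one_pow,
    one_mul, Finset.prod_comm]
  refine Finset.prod_congr rfl fun c _ => ?_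
  rw [← Finset.prod_filter, Finset.prod_const, NN]

omit hm in
lemma NN_zero : NN p 0 = 0 := by
  unfold NN
  rw [Finset.card_eq_zero, Finset.filter_eq_empty_iff]
  intro r hr
  rw [add_zero, mem_Ns, mem_Rs.1 hr]
  norm_num

lemma NN_eq {c : ZMod p} (hc : c ≠ 0) :
    (4 * NN p c : ℤ) = p - 1 + quadraticChar (ZMod p) c - quadraticChar (ZMod p) (-c) := by
  have hp2 : p ≠ 2 := by omega
  have h1 : ∀ r : ZMod p, (4 * (if r ∈ Rs p then (if r + c ∈ Ns p then 1 else 0) else 0) : ℤ) =
      (1 + quadraticChar (ZMod p) r) * (1 - quadraticChar (ZMod p) (r + c))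
        - (if r = 0 then 1 - quadraticChar (ZMod p) c else 0)
        - (if r = -c then 1 + quadraticChar (ZMod p) (-c) else 0) := by
    intro r
    by_cases h0 : r = 0
    · subst h0
      rw [if_neg (by rw [mem_Rs, MulChar.map_zero]; norm_num), if_pos rfl,
        if_neg (by intro h; exact hc (neg_eq_zero.1 h.symm)), MulChar.map_zero, zero_add]
      ring
    · by_cases h2 : r = -c
      · subst h2
        rw [neg_add_cancel, if_neg h0, if_pos rfl, MulChar.map_zero]
        have : (0 : ZMod p) ∉ Ns p := by rw [mem_Ns, MulChar.map_zero]; norm_num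
        rw [if_neg this]
        simp
      · have h3 : r + c ≠ 0 := by
          intro h; exact h2 (eq_neg_of_add_eq_zero_left h)
        rw [if_neg h0, if_neg h2]
        rcases quadraticChar_dichotomy h0 with h | h <;>
          rcases quadraticChar_dichotomy h3 with h' | h' <;>
          simp [mem_Rs, mem_Ns, h, h'] <;> norm_num
  have h2 : (NN p c : ℤ) = ∑ r : ZMod p, (if r ∈ Rs p then (if r + c ∈ Ns p then 1 else 0) else 0) := by
    unfold NN
    rw [Finset.card_filter, Finset.sum_ite_mem, Finset.univ_inter]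
    push_cast
    rfl
  have hcorr := R945.LD.q_corr (p := p) hp2 c
  rw [if_neg hc] at hcorr
  have hs1 := R945.LD.q_sum (p := p) hp2
  have hs2 : ∑ r : ZMod p, quadraticChar (ZMod p) (r + c) = 0 := by
    rw [← hs1]
    exact Fintype.sum_equiv (Equiv.addRight c) _ _ (fun _ => rfl)
  rw [h2, Finset.mul_sum, Finset.sum_congr rfl (fun r _ => h1 r), Finset.sum_sub_distrib,
    Finset.sum_sub_distrib]
  have h5 : ∑ r : ZMod p, (1 + quadraticChar (ZMod p) r) * (1 - quadraticChar (ZMod p) (r + c)) =
      (p : ℤ) + 1 := by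
    have e : ∀ r : ZMod p, (1 + quadraticChar (ZMod p) r) * (1 - quadraticChar (ZMod p) (r + c)) =
        1 + quadraticChar (ZMod p) r - quadraticChar (ZMod p) (r + c) -
          quadraticChar (ZMod p) r * quadraticChar (ZMod p) (r + c) := by intro r; ring
    rw [Finset.sum_congr rfl (fun r _ => e r), Finset.sum_sub_distrib, Finset.sum_sub_distrib,
      Finset.sum_add_distrib, hs2]
    have hs1' : ∑ r : ZMod p, (quadraticChar (ZMod p) r : ℤ) = 0 := hs1
    have hcorr' : ∑ r : ZMod p, (quadraticChar (ZMod p) r : ℤ) * quadraticChar (ZMod p) (r + c) = 0 - 1 := hcorr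
    rw [hs1', hcorr']
    simp
  rw [h5]
  simp
  ring

lemma Res_split (hp3 : p ≠ 3) (a b : ℕ) (ha : ∀ c ∈ Rs p, NN p c = a) (hb : ∀ c ∈ Ns p, NN p c = b) :
    Res p = (PR p).eval 1 ^ a * (PN p).eval 1 ^ b := by
  rw [Res_eq hm hp3, ← Finset.mul_prod_erase univ _ (Finset.mem_univ (0 : ZMod p)),
    R945.TP.erase_eq, Finset.prod_union disj, NN_zero, pow_zero, one_mul, PR, PN, eval_prod, eval_prod,
    ← Finset.prod_pow, ← Finset.prod_pow]
  congr 1
  · refine Finset.prod_congr rfl fun c hc => ?_
    rw [ha c hc]; simp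
  · refine Finset.prod_congr rfl fun c hc => ?_
    rw [hb c hc]; simp

/-- the discriminant -/
theorem disc_eq (hp3 : p ≠ 3) :
    (-1) ^ (m * (m - 1) / 2) * (Matrix.vandermonde (xs hm)).det ^ 2 *
      ((-1) ^ m * (PR p).eval 1) * Res p = p ^ m := by
  rw [← diff_prod]
  have h1 : ∏ i, ∏ j, (if j = i then 1 else xs hm i - xs hm j) =
      ∏ r ∈ Rs p, ∏ s ∈ (Rs p).erase r, (sc p r - sc p s) := by
    rw [← prod_en hm (fun r => ∏ s ∈ (Rs p).erase r, (sc p r - sc p s))]
    refine Finset.prod_congr rfl fun i _ => ?_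
    have h2 : ∏ s ∈ (Rs p).erase (en hm i : ZMod p), (sc p (en hm i) - sc p s) =
        ∏ s ∈ Rs p, (if s = (en hm i : ZMod p) then 1 else sc p (en hm i) - sc p s) := by
      rw [← Finset.mul_prod_erase (Rs p) _ (en hm i).2, if_pos rfl, one_mul]
      refine Finset.prod_congr rfl fun s hs => ?_
      rw [if_neg (Finset.ne_of_mem_erase hs)]
    rw [h2, ← prod_en hm (fun s => if s = (en hm i : ZMod p) then 1 else sc p (en hm i) - sc p s)]
    refine Finset.prod_congr rfl fun j _ => ?_
    by_cases h : j = i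
    · subst h; simp
    · rw [if_neg h, if_neg (fun h' => h ((en hm).injective (Subtype.ext h')))]
      rfl
  rw [h1]
  have h3 : (-1) ^ m * (PR p).eval 1 = ∏ r ∈ Rs p, (sc p r - 1) := by
    rw [PR, eval_prod]
    simp only [eval_sub, eval_X, eval_C]
    have : ∀ r ∈ Rs p, sc p r - 1 = (-1) * (1 - sc p r) := by intro r _; ring
    rw [Finset.prod_congr rfl this, Finset.prod_mul_distrib, Finset.prod_const, (card_R hm).1]
  rw [h3, Res, ← Finset.prod_mul_distrib, ← Finset.prod_mul_distrib,
    Finset.prod_congr rfl (fun r hr => deriv_root hm hr), Finset.prod_mul_distrib, Finset.prod_const,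
    (card_R hm).1, Finset.prod_pow, prod_R hm hp3, one_pow, mul_one]

end Pool.Agent.H592LD
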