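import Mathlib
import Pool.Agent.H592LD.HKd

set_option autoImplicit false

/-!
# The determinant of the Hankel matrix of the quadratic character
-/

namespace Pool.Agent.H592LD

open Finset Polynomial Matrix Pool.Agent.Helper184.Chapman Pool.Agent.R945.TP

variable {p : ℕ} [Fact p.Prime] {m : ℕ} (hm : p = 2 * m + 1)

/-- the Hankel matrix `χ(j+k) + x`, `0 ≤ j, k ≤ m - 1` -/
noncomputable def HX (p m : ℕ) [Fact p.Prime] (x : ℂ) : Matrix (Fin m) (Fin m) ℂ :=
  Matrix.of fun j k => chi p ℂ (((j : ℕ) : ZMod p) + ((k : ℕ) : ZMod p)) + x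

include hm

/-- factorisation of the Hankel matrix -/
lemma HX_fac (hp3 : p ≠ 3) (x : ℂ) :
    gg p • HX p m x =
      (Matrix.vandermonde (xs hm))ᵀ * ((2 : ℂ) • (1 +
        (Matrix.of fun (i : Fin m) (t : Fin 2) => if t = 0 then L1 p (en hm i) else L0 p m (en hm i)) *
        (Matrix.of fun (t : Fin 2) (i : Fin m) => if t = 0 then (1 + gg p * x) / 2 * L1 p (en hm i)
          else -(p / 2) * L0 p m (en hm i)))) * Matrix.vandermonde (xs hm) := by
  have hp2 : p ≠ 2 := by omega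
  set A : Matrix (Fin m) (Fin 2) ℂ :=
    Matrix.of fun (i : Fin m) (t : Fin 2) => if t = 0 then L1 p (en hm i) else L0 p m (en hm i) with hA
  set B : Matrix (Fin 2) (Fin m) ℂ := Matrix.of fun (t : Fin 2) (i : Fin m) =>
    if t = 0 then (1 + gg p * x) / 2 * L1 p (en hm i) else -(p / 2) * L0 p m (en hm i) with hB
  set V := Matrix.vandermonde (xs hm) with hV
  have hVA0 : ∀ j : Fin m, (Vᵀ * A) j 0 = 1 := by
    intro j
    rw [Matrix.mul_apply, ← L1_interp hm j j.2, ← sum_en hm (fun r => sc p r ^ (j : ℕ) * L1 p r)]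
    refine Finset.sum_congr rfl fun i _ => ?_
    simp only [hV, hA, Matrix.transpose_apply, Matrix.vandermonde_apply, Matrix.of_apply, if_true, xs]
  have hVA1 : ∀ j : Fin m, (Vᵀ * A) j 1 = if (j : ℕ) = 0 then 1 else 0 := by
    intro j
    rw [Matrix.mul_apply, ← L0_interp hm hp3 j j.2, ← sum_en hm (fun r => sc p r ^ (j : ℕ) * L0 p m r)]
    refine Finset.sum_congr rfl fun i _ => ?_
    simp only [hV, hA, Matrix.transpose_apply, Matrix.vandermonde_apply, Matrix.of_apply, xs]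
    rw [if_neg (by decide)]
  have hBV0 : ∀ k : Fin m, (B * V) 0 k = (1 + gg p * x) / 2 := by
    intro k
    rw [Matrix.mul_apply]
    have e : ∀ i : Fin m, B 0 i * V i k = (1 + gg p * x) / 2 * (sc p (en hm i) ^ (k : ℕ) * L1 p (en hm i)) := by
      intro i
      simp only [hV, hB, Matrix.vandermonde_apply, Matrix.of_apply, if_true, xs]
      ring
    rw [Finset.sum_congr rfl (fun i _ => e i), ← Finset.mul_sum,
      sum_en hm (fun r => sc p r ^ (k : ℕ) * L1 p r), L1_interp hm k k.2, mul_one]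
  have hBV1 : ∀ k : Fin m, (B * V) 1 k = -(p / 2) * (if (k : ℕ) = 0 then 1 else 0) := by
    intro k
    rw [Matrix.mul_apply]
    have e : ∀ i : Fin m, B 1 i * V i k = -(p / 2) * (sc p (en hm i) ^ (k : ℕ) * L0 p m (en hm i)) := by
      intro i
      simp only [hV, hB, Matrix.vandermonde_apply, Matrix.of_apply, xs]
      rw [if_neg (by decide)]
      ring
    rw [Finset.sum_congr rfl (fun i _ => e i), ← Finset.mul_sum,
      sum_en hm (fun r => sc p r ^ (k : ℕ) * L0 p m r), L0_interp hm hp3 k k.2]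
  have hfac : Vᵀ * ((2 : ℂ) • (1 + A * B)) * V = (2 : ℂ) • (Vᵀ * V + (Vᵀ * A) * (B * V)) := by
    rw [Matrix.mul_smul, Matrix.smul_mul, Matrix.mul_add, Matrix.mul_one, Matrix.add_mul,
      ← Matrix.mul_assoc, Matrix.mul_assoc (Vᵀ * A)]
  rw [hfac]
  ext j k
  rw [Matrix.smul_apply, Matrix.smul_apply, Matrix.add_apply, Matrix.mul_apply (M := Vᵀ * A),
    Fin.sum_univ_two, hVA0, hVA1, hBV0, hBV1, Matrix.mul_apply]
  have hVV : ∑ i, Vᵀ j i * V i k = ∑ r ∈ Rs p, sc p ((((j : ℕ) : ZMod p) + ((k : ℕ) : ZMod p)) * r) := by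
    rw [← sum_en hm (fun r => sc p ((((j : ℕ) : ZMod p) + ((k : ℕ) : ZMod p)) * r))]
    refine Finset.sum_congr rfl fun i _ => ?_
    simp only [hV, Matrix.transpose_apply, Matrix.vandermonde_apply, xs]
    rw [← pow_add, sc_pow]
    push_cast
    rfl
  rw [hVV]
  simp only [HX, Matrix.of_apply, smul_eq_mul]
  have hg := gg_R (((j : ℕ) : ZMod p) + ((k : ℕ) : ZMod p)) hp2
  have hzero : (((j : ℕ) : ZMod p) + ((k : ℕ) : ZMod p) = 0) ↔ ((j : ℕ) = 0 ∧ (k : ℕ) = 0) := by
    constructor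
    · intro h
      have h1 : (((j : ℕ) + (k : ℕ) : ℕ) : ZMod p) = 0 := by push_cast; exact h
      rw [ZMod.natCast_eq_zero_iff] at h1
      by_contra hne
      have := Nat.le_of_dvd (by omega) h1
      omega
    · rintro ⟨h1, h2⟩
      rw [h1, h2]; simp
  rw [mul_add, hg]
  by_cases hj : (j : ℕ) = 0
  · by_cases hk : (k : ℕ) = 0
    · rw [if_pos (hzero.2 ⟨hj, hk⟩), if_pos hj, if_pos hk]; ring
    · rw [if_neg (fun h => hk (hzero.1 h).2), if_pos hj, if_neg hk]; ring
  · rw [if_neg (fun h => hj (hzero.1 h).1), if_neg hj]; ring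

/-- the determinant in terms of the discriminant -/
theorem HX_det (hp3 : p ≠ 3) (hm0 : 0 < m) (x : ℂ) :
    gg p ^ m * (HX p m x).det = 2 ^ m * (Matrix.vandermonde (xs hm)).det ^ 2 *
      ((1 + (1 + gg p * x) / 2 * ((PR p).eval 1 ^ 2 * (1 + gg p) / p - 1)) * (1 - gg p / 2) +
        (1 + gg p * x) * ((PR p).eval 1 ^ 2 * gg p ^ 2) / (4 * p)) := by
  have hp0 : (p : ℂ) ≠ 0 := pC
  have h := congrArg Matrix.det (HX_fac hm hp3 x)
  rw [Matrix.det_smul, Fintype.card_fin, Matrix.det_mul, Matrix.det_mul, Matrix.det_smul,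
    Fintype.card_fin, Matrix.det_transpose, Matrix.det_one_add_mul_comm] at h
  rw [h]
  set A : Matrix (Fin m) (Fin 2) ℂ :=
    Matrix.of fun (i : Fin m) (t : Fin 2) => if t = 0 then L1 p (en hm i) else L0 p m (en hm i) with hA
  set B : Matrix (Fin 2) (Fin m) ℂ := Matrix.of fun (t : Fin 2) (i : Fin m) =>
    if t = 0 then (1 + gg p * x) / 2 * L1 p (en hm i) else -(p / 2) * L0 p m (en hm i) with hB
  have s11 : ∑ i, L1 p (en hm i) * L1 p (en hm i) = (PR p).eval 1 ^ 2 * (1 + gg p) / p - 1 := by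
    rw [sum_en hm (fun r => L1 p r * L1 p r), L1_L1 hm hm0]
  have s10 : ∑ i, L1 p (en hm i) * L0 p m (en hm i) = (-1) ^ m * (PR p).eval 1 * gg p / p := by
    rw [sum_en hm (fun r => L1 p r * L0 p m r), L1_L0 hm hm0]
  have s00 : ∑ i, L0 p m (en hm i) * L0 p m (en hm i) = gg p / p := by
    rw [sum_en hm (fun r => L0 p m r * L0 p m r), L0_L0 hm hp3 hm0]
  have hBA : (1 + B * A : Matrix (Fin 2) (Fin 2) ℂ) =
      !![1 + (1 + gg p * x) / 2 * ((PR p).eval 1 ^ 2 * (1 + gg p) / p - 1),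
        (1 + gg p * x) / 2 * ((-1) ^ m * (PR p).eval 1 * gg p / p);
        -(p / 2) * ((-1) ^ m * (PR p).eval 1 * gg p / p), 1 - (p / 2) * (gg p / p)] := by
    ext i j
    fin_cases i <;> fin_cases j <;>
      simp only [Matrix.add_apply, Matrix.mul_apply, hA, hB, Matrix.of_apply, Fin.zero_eta, Fin.isValue,
        Matrix.cons_val', Matrix.cons_val_zero, Matrix.cons_val_one, if_true, Fin.mk_one,
        Matrix.cons_val_fin_one]
    · rw [← s11, Finset.mul_sum]
      simp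
      exact Finset.sum_congr rfl fun i _ => by ring
    · rw [← s10, Finset.mul_sum]
      simp
      exact Finset.sum_congr rfl fun i _ => by ring
    · rw [← s10, Finset.mul_sum]
      simp
      exact Finset.sum_congr rfl fun i _ => by ring
    · rw [← s00, Finset.mul_sum]
      simp
      rw [sub_eq_add_neg]
      congr 2
      exact Finset.sum_congr rfl fun i _ => by ring
  rw [hBA, Matrix.det_fin_two_of]
  have h2 : ((-1 : ℂ)) ^ m * (-1) ^ m = 1 := by
    rw [← mul_pow]; simp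
  have h3 : (1 + gg p * x) / 2 * ((-1) ^ m * (PR p).eval 1 * gg p / p) *
      (-(p / 2) * ((-1) ^ m * (PR p).eval 1 * gg p / p)) =
      -((1 + gg p * x) * ((PR p).eval 1 ^ 2 * gg p ^ 2) / (4 * p)) := by
    have : (1 + gg p * x) / 2 * ((-1) ^ m * (PR p).eval 1 * gg p / p) *
      (-(p / 2) * ((-1) ^ m * (PR p).eval 1 * gg p / p)) =
      ((-1 : ℂ) ^ m * (-1) ^ m) * ((1 + gg p * x) / 2 * ((PR p).eval 1 * gg p / p) *
      (-(p / 2) * ((PR p).eval 1 * gg p / p))) := by ring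
    rw [this, h2, one_mul]
    field_simp
    ring
  have h4 : (p : ℂ) / 2 * (gg p / p) = gg p / 2 := by field_simp
  rw [h3, h4]
  ring

end Pool.Agent.H592LD
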