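import Mathlib
import Pool.Agent.H592LD.HKa
import Pool.Agent.H592LD.HKe
import Pool.Agent.R945.TP.P3
import Pool.Agent.R945.TP.Q1

set_option autoImplicit false

/-!
# The Hankel determinants with four parameters
-/

namespace Pool.Agent.H592LD

open Finset Polynomial Matrix Pool.Agent.Helper184.Chapman Pool.Agent.R945.TP

variable {p : ℕ} [Fact p.Prime] {m : ℕ} (hm : p = 2 * m + 1)

include hm

lemma van_ne (hp3 : p ≠ 3) : (Matrix.vandermonde (xs hm)).det ^ 2 ≠ 0 := by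
  intro h
  have h1 := disc_eq hm hp3
  rw [h] at h1
  simp only [mul_zero, zero_mul] at h1
  exact (pow_ne_zero m (pC (p := p))) h1.symm

lemma PN_one_three (h3 : p % 4 = 3) (hp3 : p ≠ 3) : (PN p).eval 1 = -(PR p).eval 1 := by
  have hq : quadraticChar (ZMod p) (-1) = -1 := R945.LD.q_neg_one_of_three h3
  have h1 : (PN p).eval 1 = ∏ r ∈ Rs p, (1 - sc p (-r)) := by
    rw [PN, eval_prod]
    symm
    apply Finset.prod_bij (fun r _ => -r)
    · intro r hr
      rw [mem_Ns, ← neg_one_mul, map_mul, hq, mem_Rs.1 hr]; norm_num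
    · intro a _ b _ h; exact neg_injective h
    · intro n hn
      refine ⟨-n, ?_, neg_neg n⟩
      rw [mem_Rs, ← neg_one_mul, map_mul, hq, mem_Ns.1 hn]; norm_num
    · intro r _; simp
  have h2 : ∀ r ∈ Rs p, 1 - sc p (-r) = (-1) * (sc p r)⁻¹ * (1 - sc p r) := by
    intro r _
    have := sc_ne (p := p) r
    rw [AddChar.map_neg_eq_inv]
    field_simp
    ring
  rw [h1, Finset.prod_congr rfl h2, Finset.prod_mul_distrib, Finset.prod_mul_distrib, Finset.prod_const,
    Finset.prod_inv_distrib, prod_R hm hp3, (card_R hm).1, PR, eval_prod]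
  have h4 : ((-1 : ℂ)) ^ m = -1 := Odd.neg_one_pow (Nat.odd_iff.2 (by omega))
  rw [h4]
  simp

/-- the determinant for `p = 3 mod 4` -/
theorem HX_three (h3 : p % 4 = 3) (hp3 : p ≠ 3) (x : ℂ) :
    (HX p m x).det = -2 ^ (m - 1) * (1 + 2 * x) := by
  have hp0 : (p : ℂ) ≠ 0 := pC
  have hp2 : p ≠ 2 := by omega
  obtain ⟨s, hs⟩ : ∃ s, m = 2 * s + 1 := ⟨m / 2, by omega⟩
  have hg2 : gg p ^ 2 = -p := by
    have := gsq (K := ℂ) hp2 two_ne_zero (sc p) sc_prim
    rw [et_three h3] at this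
    rw [gg, this]; ring
  have hPN := PN_one_three hm h3 hp3
  have hPP := PR_PN_one (p := p) hm
  have hR2 : (PR p).eval 1 ^ 2 = -p := by
    rw [hPN] at hPP; linear_combination -hPP
  have hq : quadraticChar (ZMod p) (-1) = -1 := R945.LD.q_neg_one_of_three h3
  have hpm : (p : ℤ) = 2 * m + 1 := by exact_mod_cast hm
  have hRes := Res_split hm hp3 (s + 1) s (by
    intro c hc
    have h := NN_eq hm (Rs_ne hc)
    rw [← neg_one_mul c, map_mul, hq, mem_Rs.1 hc] at h
    omega) (by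
    intro c hc
    have h := NN_eq hm (Ns_ne hc)
    rw [← neg_one_mul c, map_mul, hq, mem_Ns.1 hc] at h
    omega)
  have hRes2 : Res p = (PR p).eval 1 * p ^ s := by
    rw [hRes, ← hPP]; ring
  have hd := disc_eq hm hp3
  have hodd : ((-1 : ℂ)) ^ m = -1 := Odd.neg_one_pow (Nat.odd_iff.2 (by omega))
  have he : ((-1 : ℂ)) ^ (m * (m - 1) / 2) = (-1) ^ s := by
    have : m * (m - 1) / 2 = s + 2 * (s * s) := by
      rw [hs, show (2 * s + 1) * (2 * s + 1 - 1) = 2 * (s + 2 * (s * s)) by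
        simp only [Nat.add_sub_cancel]; ring]
      simp
    rw [this, pow_add, pow_mul]
    simp
  set D := (Matrix.vandermonde (xs hm)).det ^ 2 with hD
  have hD0 : D ≠ 0 := van_ne hm hp3
  have hDval : gg p ^ m = gg p * D := by
    rw [he, hodd, hRes2] at hd
    have h5 : (-1 : ℂ) ^ s * D * (p * p ^ s) = p ^ m := by
      rw [← hd]
      linear_combination ((-1 : ℂ) ^ s * D * p ^ s) * hR2
    have h6 : ((-1 : ℂ)) ^ s * (-1) ^ s = 1 := by rw [← mul_pow]; simp
    have h7 : D = (-1) ^ s * p ^ s := by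
      have h8 : (p : ℂ) * p ^ s ≠ 0 := mul_ne_zero hp0 (pow_ne_zero _ hp0)
      apply mul_right_cancel₀ h8
      have h9 : (p : ℂ) ^ m = p ^ s * (p * p ^ s) := by rw [hs]; ring
      rw [h9] at h5
      linear_combination (-1 : ℂ) ^ s * h5 - D * (p * p ^ s) * h6
    rw [h7, hs, pow_succ, pow_mul, hg2, neg_pow]
    ring
  have h := HX_det hm hp3 (by omega) x
  rw [hDval, ← hD, hR2] at h
  have hg0 : gg p ≠ 0 := by
    intro h0
    rw [h0] at hg2
    apply hp0
    linear_combination hg2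
  have h10 : (2 : ℂ) ^ m = 2 * 2 ^ (m - 1) := by
    rw [← pow_succ']
    congr 1
    omega
  apply mul_left_cancel₀ (mul_ne_zero hg0 hD0)
  rw [h, h10]
  field_simp
  ring

/-- the determinant for `p = 1 mod 4` -/
theorem HX_one (h1 : p % 4 = 1) (a b : ℂ) (hR : (PR p).eval 1 = p * b - a * gg p)
    (hN : (PN p).eval 1 = p * b + a * gg p) (x : ℂ) :
    (HX p m x).det = (-1) ^ (m / 2) * 2 ^ (m - 1) * ((2 * b - a) + (p * b - 2 * a) * x) := by
  have hp : p.Prime := Fact.out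
  have hp0 : (p : ℂ) ≠ 0 := pC
  have hp2 : p ≠ 2 := by omega
  have hp3 : p ≠ 3 := by omega
  have hm0 : 0 < m := by
    have := hp.two_le
    omega
  obtain ⟨s, hs⟩ : ∃ s, m = 2 * s := ⟨m / 2, by omega⟩
  have hs2 : m / 2 = s := by omega
  have hg2 : gg p ^ 2 = p := by
    have := gsq (K := ℂ) hp2 two_ne_zero (sc p) sc_prim
    rw [et_one h1] at this
    rw [gg, this]; ring
  have hPP := PR_PN_one (p := p) hm
  have hq : quadraticChar (ZMod p) (-1) = 1 := R945.LD.q_neg_one_of_one h1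
  have hpm : (p : ℤ) = 2 * m + 1 := by exact_mod_cast hm
  have hRes := Res_split hm hp3 s s (by
    intro c hc
    have h := NN_eq hm (Rs_ne hc)
    rw [← neg_one_mul c, map_mul, hq, mem_Rs.1 hc] at h
    omega) (by
    intro c hc
    have h := NN_eq hm (Ns_ne hc)
    rw [← neg_one_mul c, map_mul, hq, mem_Ns.1 hc] at h
    omega)
  have hRes2 : Res p = p ^ s := by
    rw [hRes, ← mul_pow, hPP]
  have hd := disc_eq hm hp3
  have heven : ((-1 : ℂ)) ^ m = 1 := Even.neg_one_pow ⟨s, by omega⟩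
  have h6 : ((-1 : ℂ)) ^ s * (-1) ^ s = 1 := by rw [← mul_pow]; simp
  have he : ((-1 : ℂ)) ^ (m * (m - 1) / 2) = (-1) ^ s := by
    obtain ⟨t, ht⟩ : ∃ t, s = t + 1 := ⟨s - 1, by omega⟩
    have : m * (m - 1) / 2 = s + 2 * (s * t) := by
      rw [hs, ht, show 2 * (t + 1) * (2 * (t + 1) - 1) = 2 * (t + 1 + 2 * ((t + 1) * t)) by
        rw [show 2 * (t + 1) - 1 = 2 * t + 1 by omega]; ring]
      simp
    rw [this, pow_add, pow_mul]
    simp
  set D := (Matrix.vandermonde (xs hm)).det ^ 2 with hD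
  set R := (PR p).eval 1 with hRdef
  set N := (PN p).eval 1 with hNdef
  set g := gg p with hg
  rw [he, heven, hRes2, one_mul] at hd
  have hDR : D * R = (-1) ^ s * p ^ s := by
    have h8 : (p : ℂ) ^ s ≠ 0 := pow_ne_zero _ hp0
    apply mul_right_cancel₀ h8
    have h9 : (p : ℂ) ^ m = p ^ s * p ^ s := by rw [hs]; ring
    rw [h9] at hd
    linear_combination (-1 : ℂ) ^ s * hd - D * R * p ^ s * h6
  have h := HX_det hm hp3 hm0 x
  rw [← hD, ← hg, ← hRdef] at h
  have hgm : g ^ m = p ^ s := by rw [hs, pow_mul, hg2]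
  rw [hgm] at h
  have h10 : (2 : ℂ) ^ m = 2 * 2 ^ (m - 1) := by
    rw [← pow_succ']
    congr 1
    omega
  have hps : (p : ℂ) ^ s ≠ 0 := pow_ne_zero _ hp0
  have hR0 : R ≠ 0 := by
    intro h0; rw [h0, zero_mul] at hPP; exact hp0 hPP.symm
  have hN0 : N ≠ 0 := by
    intro h0; rw [h0, mul_zero] at hPP; exact hp0 hPP.symm
  have hRp : R ^ 2 / p = R / N := by
    rw [← hPP]; field_simp
  -- multiply by `R`
  have h11 : R * (HX p m x).det = (-1) ^ s * 2 ^ m *
      ((1 + (1 + g * x) / 2 * (R ^ 2 * (1 + g) / p - 1)) * (1 - g / 2) +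
        (1 + g * x) * (R ^ 2 * g ^ 2) / (4 * p)) := by
    apply mul_left_cancel₀ hps
    linear_combination R * h + 2 ^ m * ((1 + (1 + g * x) / 2 * (R ^ 2 * (1 + g) / p - 1)) * (1 - g / 2) +
        (1 + g * x) * (R ^ 2 * g ^ 2) / (4 * p)) * hDR
  have h12 : (p : ℂ) * (HX p m x).det = (-1) ^ s * 2 ^ m *
      (N * (1 - g / 2) + (1 + g * x) / 4 * (R * (2 + g) - (2 - g) * N)) := by
    have h13 : (p : ℂ) * (HX p m x).det = N * (R * (HX p m x).det) := by rw [← hPP]; ring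
    rw [h13, h11]
    have h14 : R ^ 2 * (1 + g) / p = R / N * (1 + g) := by rw [← hRp]; ring
    have h15 : (1 + g * x) * (R ^ 2 * g ^ 2) / (4 * p) = (1 + g * x) * (R / N * g ^ 2) / 4 := by
      rw [← hRp]; field_simp
    rw [h14, h15]
    field_simp
    ring
  apply mul_left_cancel₀ hp0
  rw [h12, hR, hN, h10, hs2]
  linear_combination ((-1 : ℂ) ^ s * 2 ^ (m - 1) * (p * b * x - a - 2 * a * x)) * hg2

omit hm in
lemma HX_four (k : ℕ) (x y z w : ℂ) :
    (Matrix.of fun i j : Fin (k + 1) => x + chi p ℂ (((i : ℕ) : ZMod p) + ((j : ℕ) : ZMod p))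
      + chi p ℂ ((i : ℕ) : ZMod p) * y + chi p ℂ ((j : ℕ) : ZMod p) * z
      + chi p ℂ ((i : ℕ) : ZMod p) * chi p ℂ ((j : ℕ) : ZMod p) * w).det =
    ((HX p (k + 1) 1).det - (HX p (k + 1) 0).det) * x -
      (HX p (k + 1) 0).det * (w * x - (y + 1) * (z + 1)) := by
  have h0 : HX p (k + 1) 0 0 0 = 0 := by
    simp only [HX, Matrix.of_apply, Fin.val_zero, Nat.cast_zero, add_zero]
    exact MulChar.map_zero _
  have h := four_param (HX p (k + 1) 0) h0 x y z w
  have e1 : (Matrix.of fun i j => HX p (k + 1) 0 i j + 1) = HX p (k + 1) 1 := by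
    ext i j; simp [HX]
  rw [e1] at h
  rw [← h]
  congr 1
  ext i j
  simp [HX]

end Pool.Agent.H592LD
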