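import Mathlib
import Pool.Agent.R945.LD.BThree

set_option autoImplicit false

/-!
# A congruence modulo `16` for a sum of quadratic residue symbols, `p = 3 mod 4`
-/

namespace Pool.Agent.H592LD

open Finset Pool.Agent.R945.LD

variable {p : ℕ} [Fact p.Prime]

/-- the sign of a residue class -/
noncomputable def sg (p : ℕ) (a : ZMod p) : ℤ := if a = 0 then 0 else if a.val ≤ p / 2 then 1 else -1

lemma sg_zero : sg p 0 = 0 := by simp [sg]

lemma sg_neg {m : ℕ} (hm : p = 2 * m + 1) (a : ZMod p) : sg p (-a) = - sg p a := by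
  unfold sg
  by_cases ha : a = 0
  · subst ha; simp
  · rw [if_neg ha, if_neg (neg_ne_zero.mpr ha)]
    have h1 := ZMod.val_lt a
    have : NeZero a := ⟨ha⟩
    have h2 : (-a).val = p - a.val := ZMod.val_neg_of_ne_zero a
    have h3 : 0 < a.val := by
      rcases Nat.eq_zero_or_pos a.val with h | h
      · exact absurd ((ZMod.val_eq_zero a).1 h) ha
      · exact h
    rw [h2]
    by_cases h : a.val ≤ p / 2
    · rw [if_pos h, if_neg (by omega)]
    · rw [if_neg h, if_pos (by omega)]; norm_num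

lemma J_val {m : ℕ} (hm : p = 2 * m + 1) (j : Fin m) : (J p j).val = j + 1 := by
  have : J p j = ((j + 1 : ℕ) : ZMod p) := by unfold J; push_cast; rfl
  rw [this, ZMod.val_natCast_of_lt (by omega)]

lemma sg_J {m : ℕ} (hm : p = 2 * m + 1) (j : Fin m) : sg p (J p j) = 1 := by
  unfold sg
  rw [if_neg (J_ne hm j), J_val hm j, if_pos (by omega)]

lemma sg_pm {m : ℕ} (hm : p = 2 * m + 1) {a : ZMod p} (ha : a ≠ 0) : sg p a = 1 ∨ sg p a = -1 := by
  unfold sg
  rw [if_neg ha]
  split_ifs <;> simp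

/-- the number of positive minus the number of negative `t k`, `1 ≤ k ≤ m` -/
noncomputable def cc (p m : ℕ) (t : ZMod p) : ℤ := ∑ k : Fin m, sg p (t * J p k)

lemma cc_full {m : ℕ} (hm : p = 2 * m + 1) (t : ZMod p) :
    ∑ b : ZMod p, sg p (t * b) * sg p b = 2 * cc p m t := by
  rw [sum_half m hm, sg_zero, mul_zero, zero_add, cc, Finset.mul_sum]
  refine Finset.sum_congr rfl fun k _ => ?_
  have h1 : ((k : ℕ) : ZMod p) + 1 = J p k := rfl
  rw [h1, mul_neg, sg_neg hm, sg_neg hm, sg_J hm]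
  ring

lemma cc_inv {m : ℕ} (hm : p = 2 * m + 1) {t : ZMod p} (ht : t ≠ 0) : cc p m t⁻¹ = cc p m t := by
  have h1 := cc_full hm t
  have h2 := cc_full hm t⁻¹
  have h3 : ∑ b : ZMod p, sg p (t⁻¹ * b) * sg p b = ∑ b : ZMod p, sg p (t * b) * sg p b := by
    symm
    apply Fintype.sum_equiv (Equiv.mulLeft₀ t ht)
    intro b
    simp only [Equiv.mulLeft₀_apply]
    rw [← mul_assoc, inv_mul_cancel₀ ht, one_mul, mul_comm]
  rw [h3, h1] at h2
  omega

lemma cc_neg {m : ℕ} (hm : p = 2 * m + 1) (t : ZMod p) : cc p m (-t) = - cc p m t := by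
  unfold cc
  rw [← Finset.sum_neg_distrib]
  refine Finset.sum_congr rfl fun k _ => ?_
  rw [neg_mul, sg_neg hm]

lemma cc_zero {m : ℕ} : cc p m 0 = 0 := by
  unfold cc
  simp [sg_zero]

lemma cc_one {m : ℕ} (hm : p = 2 * m + 1) : cc p m 1 = m := by
  unfold cc
  simp [sg_J hm]

/-- Gauss's lemma -/
lemma cc_gauss {m : ℕ} (hm : p = 2 * m + 1) (hp2 : p ≠ 2) {t : ZMod p} (ht : t ≠ 0) :
    (4 : ℤ) ∣ cc p m t - (q p t + m - 1) := by
  have h1 : legendreSym p (t.val : ℤ) = (-1) ^ #{x ∈ Ico 1 (p / 2).succ |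
      p / 2 < ((t.val : ℤ) * x.cast : ZMod p).val} := by
    apply ZMod.gauss_lemma hp2
    simpa using ht
  have h2 : legendreSym p (t.val : ℤ) = q p t := by
    unfold legendreSym
    simp
  set μ := #{x ∈ Ico 1 (p / 2).succ | p / 2 < ((t.val : ℤ) * x.cast : ZMod p).val} with hμ
  have h3 : cc p m t = m - 2 * μ := by
    have e1 : cc p m t = ∑ x ∈ Ico 1 (p / 2).succ, sg p (t * x) := by
      have e2 : p / 2 = m := by omega
      rw [e2, Finset.sum_Ico_eq_sum_range, Nat.succ_sub_one, cc,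
        ← Fin.sum_univ_eq_sum_range (fun k => sg p (t * (1 + k : ℕ))) m]
      refine Finset.sum_congr rfl fun k _ => ?_
      congr 2
      unfold J
      push_cast
      ring
    have e3 : ∀ x ∈ Ico 1 (p / 2).succ, sg p (t * x) =
        1 - 2 * (if p / 2 < ((t.val : ℤ) * x.cast : ZMod p).val then 1 else 0) := by
      intro x hx
      rw [Finset.mem_Ico] at hx
      have hx0 : (x : ZMod p) ≠ 0 := by
        intro h
        rw [ZMod.natCast_eq_zero_iff] at h
        have := Nat.le_of_dvd (by omega) h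
        omega
      have e4 : (((t.val : ℤ) : ZMod p) * (x : ZMod p)) = t * x := by simp
      rw [e4]
      unfold sg
      rw [if_neg (mul_ne_zero ht hx0)]
      by_cases h : (t * (x : ZMod p)).val ≤ p / 2
      · rw [if_pos h, if_neg (by omega)]; norm_num
      · rw [if_neg h, if_pos (by omega)]; norm_num
    rw [e1, Finset.sum_congr rfl e3, Finset.sum_sub_distrib, ← Finset.mul_sum, Finset.sum_boole]
    simp only [Finset.sum_const, Nat.card_Ico, Nat.succ_sub_one, smul_eq_mul, mul_one]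
    have e2 : p / 2 = m := by omega
    rw [hμ, e2]
    simp
  rw [h3, ← h2, h1]
  rcases Nat.even_or_odd μ with ⟨s, hs⟩ | ⟨s, hs⟩
  · rw [Even.neg_one_pow ⟨s, hs⟩]; omega
  · rw [Odd.neg_one_pow ⟨s, hs⟩]; omega

/-- reindexing by ratios -/
lemma ratio_sum (φ : ZMod p → ZMod p → ℤ) :
    ∑ a : ZMod p, ∑ b : ZMod p, sg p a * sg p b * φ a b =
      ∑ t : ZMod p, ∑ b : ZMod p, sg p (t * b) * sg p b * φ (t * b) b := by
  rw [Finset.sum_comm, Finset.sum_comm (s := univ) (t := univ)
    (f := fun t b => sg p (t * b) * sg p b * φ (t * b) b)]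
  refine Finset.sum_congr rfl fun b _ => ?_
  by_cases hb : b = 0
  · subst hb; simp [sg_zero]
  · symm
    apply Fintype.sum_equiv (Equiv.mulRight₀ b hb)
    intro t
    rfl

/-- the sum `1ᵀ B χ` -/
noncomputable def WW (p : ℕ) [Fact p.Prime] (m : ℕ) : ℤ :=
  ∑ j : Fin m, ∑ k : Fin m, Bm p m ℤ j k * xv p m ℤ k

/-- the sum of the character over the half system -/
noncomputable def SS (p : ℕ) [Fact p.Prime] (m : ℕ) : ℤ := ∑ j : Fin m, xv p m ℤ j

lemma WW_eq {m : ℕ} (h3 : p % 4 = 3) (hm : p = 2 * m + 1) :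
    WW p m = ∑ t : ZMod p, q p (t - 1) * cc p m t := by
  have h1 := ratio_sum (p := p) (fun a b => q p b * q p (a - b))
  have h2 : ∑ a : ZMod p, ∑ b : ZMod p, sg p a * sg p b * (q p b * q p (a - b)) = 2 * WW p m := by
    rw [sum_half m hm]
    have e0 : ∑ b : ZMod p, sg p 0 * sg p b * (q p b * q p (0 - b)) = 0 := by simp [sg_zero]
    rw [e0, zero_add, WW, Finset.mul_sum]
    refine Finset.sum_congr rfl fun j _ => ?_
    rw [sum_half m hm, sum_half m hm, Finset.mul_sum]
    have e1 : ∀ i : ℕ, ((i : ℕ) : ZMod p) + 1 = J p i := fun i => rfl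
    simp only [e1, sg_zero, mul_zero, zero_mul, zero_add]
    rw [← Finset.sum_add_distrib]
    refine Finset.sum_congr rfl fun k _ => ?_
    simp only [sg_neg hm, sg_J hm]
    have e2 : J p j - -J p k = J p j + J p k := by ring
    have e3 : -J p j - J p k = -(J p j + J p k) := by ring
    have e4 : -J p j - -J p k = -(J p j - J p k) := by ring
    rw [e2, e3, e4, q_odd h3 (J p k), q_odd h3 (J p j + J p k), q_odd h3 (J p j - J p k)]
    simp only [Bm, xv, Matrix.of_apply, Int.cast_id]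
    ring
  have h4 : ∀ t : ZMod p, ∑ b : ZMod p, sg p (t * b) * sg p b * (q p b * q p (t * b - b)) =
      q p (t - 1) * (2 * cc p m t) := by
    intro t
    rw [← cc_full hm t, Finset.mul_sum]
    refine Finset.sum_congr rfl fun b _ => ?_
    by_cases hb : b = 0
    · subst hb; simp [sg_zero]
    · have e1 : t * b - b = b * (t - 1) := by ring
      rw [e1, q_mul]
      have := q_sq hb
      linear_combination (sg p (t * b) * sg p b * q p (t - 1)) * this
  rw [h2, Finset.sum_congr rfl (fun t _ => h4 t)] at h1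
  have h5 : ∑ t : ZMod p, q p (t - 1) * (2 * cc p m t) = 2 * ∑ t : ZMod p, q p (t - 1) * cc p m t := by
    rw [Finset.mul_sum]
    exact Finset.sum_congr rfl fun t _ => by ring
  rw [h5] at h1
  omega

lemma SS_eq {m : ℕ} (h3 : p % 4 = 3) (hm : p = 2 * m + 1) :
    2 * SS p m ^ 2 = ∑ t : ZMod p, q p t * cc p m t := by
  have h1 := ratio_sum (p := p) (fun a b => q p a * q p b)
  have h0 : ∑ b : ZMod p, sg p b * q p b = 2 * SS p m := by
    rw [sum_half m hm, sg_zero, zero_mul, zero_add, SS, Finset.mul_sum]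
    refine Finset.sum_congr rfl fun k _ => ?_
    have h1 : ((k : ℕ) : ZMod p) + 1 = J p k := rfl
    rw [h1, sg_neg hm, sg_J hm, q_odd h3]
    simp only [xv, Int.cast_id]
    ring
  have h2 : ∑ a : ZMod p, ∑ b : ZMod p, sg p a * sg p b * (q p a * q p b) = (2 * SS p m) ^ 2 := by
    rw [← h0, pow_two, Finset.sum_mul_sum]
    refine Finset.sum_congr rfl fun a _ => Finset.sum_congr rfl fun b _ => ?_
    ring
  have h4 : ∀ t : ZMod p, ∑ b : ZMod p, sg p (t * b) * sg p b * (q p (t * b) * q p b) =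
      q p t * (2 * cc p m t) := by
    intro t
    rw [← cc_full hm t, Finset.mul_sum]
    refine Finset.sum_congr rfl fun b _ => ?_
    by_cases hb : b = 0
    · subst hb; simp [sg_zero]
    · rw [q_mul]
      have := q_sq hb
      linear_combination (sg p (t * b) * sg p b * q p t) * this
  rw [h2, Finset.sum_congr rfl (fun t _ => h4 t)] at h1
  have h5 : ∑ t : ZMod p, q p t * (2 * cc p m t) = 2 * ∑ t : ZMod p, q p t * cc p m t := by
    rw [Finset.mul_sum]
    exact Finset.sum_congr rfl fun t _ => by ring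
  rw [h5] at h1
  linarith

lemma cc_sum {m : ℕ} (hm : p = 2 * m + 1) : ∑ t : ZMod p, cc p m t = 0 := by
  have h1 : ∑ t : ZMod p, cc p m t = ∑ t : ZMod p, cc p m (-t) :=
    (Fintype.sum_equiv (Equiv.neg _) _ _ (fun t => rfl)).symm
  have h2 : ∑ t : ZMod p, cc p m (-t) = - ∑ t : ZMod p, cc p m t := by
    rw [← Finset.sum_neg_distrib]
    exact Finset.sum_congr rfl fun t _ => cc_neg hm t
  omega

lemma q_inv (t : ZMod p) : q p t⁻¹ = q p t := by
  by_cases ht : t = 0
  · subst ht; simp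
  · have h1 : q p t⁻¹ * q p t = 1 := by
      rw [← q_mul, inv_mul_cancel₀ ht]; simp [q]
    have h2 := q_sq ht
    have h3 : q p t ≠ 0 := by
      intro h; rw [h] at h2; simp at h2
    exact mul_right_cancel₀ h3 (h1.trans h2.symm)

lemma q_inv_sub (h3 : p % 4 = 3) {t : ZMod p} (ht : t ≠ 0) : q p (t⁻¹ - 1) = -(q p t * q p (t - 1)) := by
  have e : t⁻¹ - 1 = -(t⁻¹ * (t - 1)) := by
    rw [mul_sub, inv_mul_cancel₀ ht]; ring
  rw [e, q_odd h3, q_mul, q_inv]

lemma WW_eq2 {m : ℕ} (h3 : p % 4 = 3) (hm : p = 2 * m + 1) :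
    2 * WW p m = ∑ t : ZMod p, q p (t - 1) * (1 - q p t) * cc p m t := by
  have h1 := WW_eq h3 hm
  have h2 : WW p m = ∑ t : ZMod p, -(q p t * q p (t - 1)) * cc p m t := by
    rw [h1]
    symm
    apply Fintype.sum_equiv (Equiv.inv (ZMod p))
    intro t
    simp only [Equiv.inv_apply]
    by_cases ht : t = 0
    · subst ht; simp [cc_zero]
    · rw [q_inv_sub h3 ht, cc_inv hm ht]
  have h4 : 2 * WW p m = WW p m + WW p m := by ring
  rw [h4]
  nth_rewrite 1 [h1]
  rw [h2, ← Finset.sum_add_distrib]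
  exact Finset.sum_congr rfl fun t _ => by ring

lemma SS_eq2 {m : ℕ} (h3 : p % 4 = 3) (hm : p = 2 * m + 1) :
    2 * SS p m ^ 2 = - ∑ t : ZMod p, (1 - q p t) * cc p m t := by
  rw [SS_eq h3 hm]
  have h1 := cc_sum hm
  have h2 : ∑ t : ZMod p, (1 - q p t) * cc p m t =
      ∑ t : ZMod p, cc p m t - ∑ t : ZMod p, q p t * cc p m t := by
    rw [← Finset.sum_sub_distrib]
    exact Finset.sum_congr rfl fun t _ => by ring
  rw [h2, h1]
  ring

/-- the nonresidues -/
noncomputable def NR (p : ℕ) [Fact p.Prime] : Finset (ZMod p) := univ.filter (fun t => q p t = -1)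

lemma mem_NR {t : ZMod p} : t ∈ NR p ↔ q p t = -1 := by simp [NR]

lemma NR_ne {t : ZMod p} (ht : t ∈ NR p) : t ≠ 0 := by
  rintro rfl
  rw [mem_NR, q_zero] at ht
  norm_num at ht

/-- sums against `1 - q` -/
lemma sum_NR (f : ZMod p → ℤ) : ∑ t : ZMod p, (1 - q p t) * f t = f 0 + 2 * ∑ t ∈ NR p, f t := by
  have h1 : ∀ t : ZMod p, (1 - q p t) * f t =
      (if t = 0 then f t else 0) + 2 * (if q p t = -1 then f t else 0) := by
    intro t
    by_cases ht : t = 0
    · subst ht
      rw [q_zero]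
      simp
    · rw [if_neg ht]
      rcases quadraticChar_dichotomy ht with h | h
      · have h' : q p t = 1 := h
        rw [h', if_neg (by norm_num)]; ring
      · have h' : q p t = -1 := h
        rw [h', if_pos rfl]; ring
  rw [Finset.sum_congr rfl (fun t _ => h1 t), Finset.sum_add_distrib, ← Finset.mul_sum, NR,
    Finset.sum_filter]
  simp

lemma main_eq {m : ℕ} (h3 : p % 4 = 3) (hm : p = 2 * m + 1) :
    m * WW p m + SS p m ^ 2 = ∑ t ∈ NR p, cc p m t * (m * q p (t - 1) - 1) := by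
  have h1 := WW_eq2 h3 hm
  have h2 := SS_eq2 h3 hm
  have h4 := sum_NR (p := p) (fun t => cc p m t * (m * q p (t - 1) - 1))
  have h5 : ∑ t : ZMod p, (1 - q p t) * (cc p m t * (m * q p (t - 1) - 1)) =
      m * (∑ t : ZMod p, q p (t - 1) * (1 - q p t) * cc p m t) -
        ∑ t : ZMod p, (1 - q p t) * cc p m t := by
    rw [Finset.mul_sum, ← Finset.sum_sub_distrib]
    exact Finset.sum_congr rfl fun t _ => by ring
  rw [h5, ← h1, cc_zero, zero_mul, zero_add] at h4
  linarith

lemma card_NR {m : ℕ} (hm : p = 2 * m + 1) : ((NR p).card : ℤ) = m := by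
  have hp2 : p ≠ 2 := by omega
  have h1 := sum_NR (p := p) (fun _ => 1)
  have h2 : ∑ t : ZMod p, (1 - q p t) * 1 = p := by
    rw [Finset.sum_congr rfl (fun t _ => mul_one _), Finset.sum_sub_distrib, q_sum hp2]
    simp
  rw [h2] at h1
  simp only [Finset.sum_const, smul_eq_mul, mul_one] at h1
  have h4 : (p : ℤ) = 2 * m + 1 := by exact_mod_cast hm
  simp at h1
  omega

lemma sum_NR_sub {m : ℕ} (h3 : p % 4 = 3) (hm : p = 2 * m + 1) : ∑ t ∈ NR p, q p (t - 1) = 1 := by
  have hp2 : p ≠ 2 := by omega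
  have h1 := sum_NR (p := p) (fun t => q p (t - 1))
  have h2 : ∑ t : ZMod p, (1 - q p t) * q p (t - 1) = 1 := by
    have e1 : ∑ t : ZMod p, (1 - q p t) * q p (t - 1) =
        ∑ t : ZMod p, q p (t - 1) - ∑ t : ZMod p, q p t * q p (t + (-1)) := by
      rw [← Finset.sum_sub_distrib]
      refine Finset.sum_congr rfl fun t _ => ?_
      rw [← sub_eq_add_neg]
      ring
    have e2 : ∑ t : ZMod p, q p (t - 1) = 0 := by
      rw [← q_sum hp2]
      exact Fintype.sum_equiv (Equiv.subRight 1) _ _ (fun _ => rfl)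
    rw [e1, e2, q_corr hp2, if_neg (by simp)]
    norm_num
  rw [h2, zero_sub, q_neg_one_of_three h3] at h1
  omega

/-- a sum over a set with a fixed point free involution -/
lemma involution_sum (s : Finset (ZMod p)) (f : ZMod p → ℤ) (hf : ∀ t ∈ s, (8 : ℤ) ∣ f t)
    (hi : ∀ t ∈ s, t⁻¹ ∈ s) (hfi : ∀ t ∈ s, f t⁻¹ = f t) (hne : ∀ t ∈ s, t⁻¹ ≠ t) :
    (16 : ℤ) ∣ ∑ t ∈ s, f t := by
  have h1 : ∑ t ∈ s, f t = 8 * ∑ t ∈ s, f t / 8 := by
    rw [Finset.mul_sum]
    exact Finset.sum_congr rfl fun t ht => (Int.mul_ediv_cancel' (hf t ht)).symm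
  have h2 : (2 : ℤ) ∣ ∑ t ∈ s, f t / 8 := by
    have h4 : ((∑ t ∈ s, f t / 8 : ℤ) : ZMod 2) = 0 := by
      push_cast
      apply Finset.sum_involution (fun t _ => t⁻¹)
      · intro t ht
        rw [hfi t ht]
        exact CharTwo.add_self_eq_zero _
      · intro t ht _
        exact hne t ht
      · intro t ht
        exact inv_inv t
      · intro t ht
        exact hi t ht
    rwa [ZMod.intCast_zmod_eq_zero_iff_dvd] at h4
  obtain ⟨r, hr⟩ := h2
  rw [h1, hr]
  exact ⟨r, by ring⟩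

/-- the congruence modulo `16` -/
theorem sixteen_dvd {m : ℕ} (h3 : p % 4 = 3) (hm : p = 2 * m + 1) (hm1 : 1 < m) :
    (16 : ℤ) ∣ m * WW p m + SS p m ^ 2 := by
  classical
  have hp2 : p ≠ 2 := by omega
  have hpm : ∀ a : ZMod p, a ≠ 0 → q p a = 1 ∨ q p a = -1 := by
    intro a ha
    rcases mul_self_eq_one_iff.mp (q_sq ha) with h | h
    · left; exact h
    · right; exact h
  rw [main_eq h3 hm]
  have hmem : (-1 : ZMod p) ∈ NR p := mem_NR.2 (q_neg_one_of_three h3)
  set N' := (NR p).erase (-1) with hN'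
  have hN'1 : ∀ t ∈ N', t ≠ 1 ∧ t ≠ -1 ∧ q p t = -1 ∧ t ≠ 0 := by
    intro t ht
    rw [hN', Finset.mem_erase] at ht
    refine ⟨?_, ht.1, mem_NR.1 ht.2, NR_ne ht.2⟩
    rintro rfl
    have := mem_NR.1 ht.2
    simp [q] at this
  set r : ZMod p → ℤ := fun t => (m * q p (t - 1) - 1) * (m - 2) with hr
  -- the main congruence
  have h16 : (16 : ℤ) ∣ ∑ t ∈ N', (cc p m t * (m * q p (t - 1) - 1) - r t) := by
    apply involution_sum
    · intro t ht
      obtain ⟨ht1, -, htq, ht0⟩ := hN'1 t ht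
      have e1 : cc p m t * (m * q p (t - 1) - 1) - r t =
          (m * q p (t - 1) - 1) * (cc p m t - (m - 2)) := by
        simp only [hr]; ring
      rw [e1]
      have e2 : (2 : ℤ) ∣ m * q p (t - 1) - 1 := by
        rcases hpm _ (sub_ne_zero.2 ht1) with h | h <;> rw [h] <;> omega
      have e4 : (4 : ℤ) ∣ cc p m t - (m - 2) := by
        have := cc_gauss hm hp2 ht0
        rw [htq] at this
        have e5 : cc p m t - (m - 2) = cc p m t - (-1 + m - 1) := by ring
        rw [e5]; exact this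
      obtain ⟨u, hu⟩ := e2
      obtain ⟨v, hv⟩ := e4
      rw [hu, hv]
      exact ⟨u * v, by ring⟩
    · intro t ht
      obtain ⟨ht1, ht2, htq, ht0⟩ := hN'1 t ht
      rw [hN', Finset.mem_erase, mem_NR, q_inv]
      refine ⟨?_, htq⟩
      intro h
      apply ht2
      rw [← inv_inv t, h, inv_neg, inv_one]
    · intro t ht
      obtain ⟨ht1, -, htq, ht0⟩ := hN'1 t ht
      simp only [hr]
      rw [q_inv_sub h3 ht0, cc_inv hm ht0, htq]
      ring
    · intro t ht h
      obtain ⟨ht1, ht2, htq, ht0⟩ := hN'1 t ht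
      have h4 : t * t = 1 := by
        nth_rewrite 1 [← h]
        exact inv_mul_cancel₀ ht0
      rcases mul_self_eq_one_iff.1 h4 with h5 | h5
      · exact ht1 h5
      · exact ht2 h5
  -- the explicit part
  have hsub : ∑ t ∈ N', q p (t - 1) = 1 + q p 2 := by
    have h5 := Finset.add_sum_erase (NR p) (fun t => q p (t - 1)) hmem
    rw [sum_NR_sub h3 hm] at h5
    have h6 : q p (-1 - 1) = - q p 2 := by
      have : (-1 - 1 : ZMod p) = -2 := by ring
      rw [this, q_odd h3]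
    rw [h6] at h5
    rw [hN']
    linarith
  have hcard : ((N'.card : ℕ) : ℤ) = m - 1 := by
    have h5 := Finset.card_erase_of_mem hmem
    have h6 := card_NR (p := p) hm
    rw [hN', h5]
    omega
  have hrsum : ∑ t ∈ N', r t = (m * (1 + q p 2) - (m - 1)) * (m - 2) := by
    simp only [hr]
    rw [← Finset.sum_mul, Finset.sum_sub_distrib, ← Finset.mul_sum, hsub, Finset.sum_const, nsmul_eq_mul,
      hcard, mul_one]
  rw [← Finset.add_sum_erase (NR p) _ hmem, ← hN']
  rw [Finset.sum_sub_distrib, hrsum] at h16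
  have hg : cc p m (-1) * (m * q p (-1 - 1) - 1) = m * (m * q p 2 + 1) := by
    have h6 : q p (-1 - 1) = - q p 2 := by
      have : (-1 - 1 : ZMod p) = -2 := by ring
      rw [this, q_odd h3]
    rw [h6, cc_neg hm, cc_one hm]
    ring
  rw [hg]
  have hq2 : q p 2 = if p % 8 = 7 then 1 else -1 := by
    show quadraticChar (ZMod p) 2 = _
    rw [quadraticChar_two (ringChar_ne hp2), ZMod.card, ZMod.χ₈_nat_eq_if_mod_eight, if_neg (by omega)]
    by_cases h8 : p % 8 = 7
    · rw [if_pos (by omega), if_pos h8]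
    · rw [if_neg (by omega), if_neg h8]
  have hfin : (16 : ℤ) ∣ m * (m * q p 2 + 1) + (m * (1 + q p 2) - (m - 1)) * (m - 2) := by
    rw [hq2]
    by_cases h8 : p % 8 = 7
    · rw [if_pos h8]
      obtain ⟨s, hs⟩ : ∃ s, m = 4 * s + 3 := ⟨m / 4, by omega⟩
      rw [hs]
      push_cast
      exact ⟨(2 * s + 1) * (s + 1), by ring⟩
    · rw [if_neg h8]
      obtain ⟨s, hs⟩ : ∃ s, m = 4 * s + 1 := ⟨m / 4, by omega⟩
      rw [hs]
      push_cast
      exact ⟨-2 * s ^ 2, by ring⟩
  have h7 := dvd_add h16 hfin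
  have e9 : (∑ t ∈ N', cc p m t * (m * q p (t - 1) - 1) - (m * (1 + q p 2) - (m - 1)) * (m - 2)) +
      (m * (m * q p 2 + 1) + (m * (1 + q p 2) - (m - 1)) * (m - 2)) =
      m * (m * q p 2 + 1) + ∑ t ∈ N', cc p m t * (m * q p (t - 1) - 1) := by ring
  rw [e9] at h7
  exact h7

end Pool.Agent.H592LD
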