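import Mathlib
import Pool.Agent.R945.LD.BThree
import Pool.Agent.R945.LD.OneB
import Pool.Agent.R343.CFP
import Pool.Agent.H592LD.Sixteen

set_option autoImplicit false

/-!
# Determinants of `(j+k|p) + (j-k|p)` with parameters, `p = 3 mod 4`
-/

namespace Pool.Agent.H592LD

open Finset Matrix Pool.Agent.R945.LD NumberField Module

variable {p : ℕ} [Fact p.Prime]

lemma SS_cast (m : ℕ) (R : Type*) [CommRing R] : ∑ j : Fin m, xv p m R j = ((SS p m : ℤ) : R) := by
  unfold SS xv
  push_cast
  rfl

lemma WW_cast (m : ℕ) (R : Type*) [CommRing R] :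
    ∑ j : Fin m, ∑ k : Fin m, Bm p m R j k * xv p m R k = ((WW p m : ℤ) : R) := by
  unfold WW xv Bm
  simp only [Matrix.of_apply]
  push_cast
  rfl

lemma row_B {m : ℕ} (hm : p = 2 * m + 1) (R : Type*) [CommRing R] (j : Fin m) :
    ∑ k, Bm p m R j k = - xv p m R j := by
  have := congrArg (Int.cast : ℤ → R) (sum_B hm (J p j))
  simp only [Bm, Matrix.of_apply, xv]
  push_cast at this ⊢
  exact this

/-- a rank one update -/
lemma det_yw {m : ℕ} (hm : p = 2 * m + 1) {R : Type*} [CommRing R] (y w : R) :
    (Matrix.of fun j k : Fin m => Bm p m R j k + xv p m R j * y + xv p m R j * xv p m R k * w).det =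
      (Bm p m R).det * (1 - m * y - ((SS p m : ℤ) : R) * w) := by
  have h1 : (Matrix.of fun j k : Fin m =>
      Bm p m R j k + xv p m R j * y + xv p m R j * xv p m R k * w) =
      Bm p m R * (1 + replicateCol Unit (fun _ => (-1 : R)) *
        replicateRow Unit (fun k => y + xv p m R k * w)) := by
    rw [Matrix.mul_add, Matrix.mul_one, ← Matrix.mul_assoc]
    ext j k
    rw [Matrix.of_apply, Matrix.add_apply, add_assoc]
    congr 1
    rw [Matrix.mul_apply]
    simp only [Finset.univ_unique, Finset.sum_singleton, replicateRow_apply, Matrix.mul_apply,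
      replicateCol_apply, mul_neg, mul_one, Finset.sum_neg_distrib]
    rw [row_B hm]
    ring
  rw [h1, det_mul, det_one_add_replicateCol_mul_replicateRow]
  congr 1
  have h2 : (fun k => y + xv p m R k * w) ⬝ᵥ (fun _ => (-1 : R)) =
      -(∑ k : Fin m, y + (∑ k : Fin m, xv p m R k) * w) := by
    simp only [dotProduct, mul_neg, mul_one, Finset.sum_neg_distrib, Finset.sum_add_distrib,
      Finset.sum_mul]
  rw [h2, SS_cast, Finset.sum_const, Finset.card_univ, Fintype.card_fin, nsmul_eq_mul]
  ring

/-- the `(m+1) × (m+1)` determinant, `p = 3 mod 4` -/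
theorem det_big3 {m : ℕ} (hm : p = 2 * m + 1) {R : Type*} [CommRing R] (x y z w : R) :
    (bd x (fun k => z * xv p m R k + x) (fun j => (y + 2) * xv p m R j + x)
      (Matrix.of fun j k : Fin m => x + Bm p m R j k + xv p m R j * y + xv p m R k * z
      + xv p m R j * xv p m R k * w)).det =
      (Bm p m R).det * (p * x + ((SS p m : ℤ) : R) * ((y + 2) * z - w * x)) := by
  have hpm : (p : R) = 2 * m + 1 := by
    have := congrArg (Nat.cast : ℕ → R) hm
    push_cast at this; exact this
  set M : Matrix (Fin m) (Fin m) R := Matrix.of fun j k => Bm p m R j k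
    + xv p m R j * (-2) + xv p m R j * xv p m R k * w with hM
  have e := bd_elim x (fun k => z * xv p m R k) (fun j => (y + 2) * xv p m R j) M
  have e1 : (Matrix.of fun j k : Fin m => x + Bm p m R j k + xv p m R j * y + xv p m R k * z
      + xv p m R j * xv p m R k * w) =
      Matrix.of fun j k => M j k + (y + 2) * xv p m R j + z * xv p m R k + x := by
    ext j k
    simp only [hM, Matrix.of_apply]
    ring
  rw [e1, e, bd_corner, bd_scale, bd_zero]
  have hMdet : M.det = (Bm p m R).det * (p - ((SS p m : ℤ) : R) * w) := by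
    rw [hM, det_yw hm, hpm]
    ring
  have hMdet2 : (Matrix.of fun j k => M j k - xv p m R j * xv p m R k).det =
      (Bm p m R).det * (p - ((SS p m : ℤ) : R) * (w - 1)) := by
    have e2 : (Matrix.of fun j k => M j k - xv p m R j * xv p m R k) =
      (Matrix.of fun j k : Fin m => Bm p m R j k + xv p m R j * (-2)
      + xv p m R j * xv p m R k * (w - 1)) := by
      ext j k
      simp only [hM, Matrix.of_apply]
      ring
    rw [e2, det_yw hm, hpm]
    ring
  rw [hMdet, hMdet2]
  ring

/-- the determinant with the parameters `x, y, w` -/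
theorem det_E {m : ℕ} (h3 : p % 4 = 3) (hm : p = 2 * m + 1) {F : Type*} [Field F] [CharZero F]
    (x y w : F) :
    (Matrix.of fun j k : Fin m => x + Bm p m F j k + xv p m F j * y
      + xv p m F j * xv p m F k * w).det =
    (Bm p m F).det * (1 - m * y - ((SS p m : ℤ) : F) * (w + x) +
      ((m * WW p m + SS p m ^ 2 : ℤ) : F) / p * (w * x)) := by
  have hpF : (p : F) ≠ 0 := by exact_mod_cast (Fact.out : p.Prime).ne_zero
  have hpm : (p : F) = 2 * m + 1 := by
    have := congrArg (Nat.cast : ℕ → F) hm
    push_cast at this; exact this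
  set S : F := ((SS p m : ℤ) : F) with hS
  set β : Fin m → F := fun j => (∑ l, Bm p m F l j - 2 * S) / p with hβ
  have hBB : ∀ i l : Fin m, ∑ j, Bm p m F i j * Bm p m F l j =
      (if i = l then (p : F) else 0) - 2 * xv p m F i * xv p m F l := by
    intro i l
    have := congrArg (Int.cast : ℤ → F) (sum_BBt h3 hm i l)
    simp only [Bm, Matrix.of_apply, xv]
    push_cast at this ⊢
    exact this
  have hBβ : ∀ i : Fin m, ∑ j, Bm p m F i j * β j = 1 := by
    intro i
    have e1 : ∑ j, Bm p m F i j * β j =
        ((∑ l, ∑ j, Bm p m F i j * Bm p m F l j) - 2 * S * ∑ j, Bm p m F i j) / p := by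
      rw [Finset.sum_comm, Finset.mul_sum, ← Finset.sum_sub_distrib, Finset.sum_div]
      refine Finset.sum_congr rfl fun j _ => ?_
      simp only [hβ]
      rw [← Finset.mul_sum]
      ring
    have e2 : ∑ l, ∑ j, Bm p m F i j * Bm p m F l j = p - 2 * xv p m F i * S := by
      rw [Finset.sum_congr rfl (fun l _ => hBB i l), Finset.sum_sub_distrib, ← Finset.mul_sum, SS_cast]
      simp [hS]
    rw [e1, e2, row_B hm]
    field_simp
    ring
  have hsum : ∑ j : Fin m, xv p m F j = S := SS_cast m F
  have h1β : ∑ j, β j = -S := by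
    have e1 : ∑ j, β j = ((∑ l, ∑ j, Bm p m F l j) - 2 * S * m) / p := by
      rw [Finset.sum_comm]
      simp only [hβ]
      rw [← Finset.sum_div, Finset.sum_sub_distrib]
      simp
      ring
    rw [e1, Finset.sum_congr rfl (fun l _ => row_B hm F l), Finset.sum_neg_distrib, hsum]
    field_simp
    rw [hpm]
    ring
  have hχβ : ∑ j, xv p m F j * β j = (((WW p m : ℤ) : F) - 2 * S ^ 2) / p := by
    have e1 : ∑ j, xv p m F j * β j =
        ((∑ l, ∑ j, Bm p m F l j * xv p m F j) - 2 * S * ∑ j, xv p m F j) / p := by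
      rw [Finset.sum_comm, Finset.mul_sum, ← Finset.sum_sub_distrib, Finset.sum_div]
      refine Finset.sum_congr rfl fun j _ => ?_
      simp only [hβ]
      rw [← Finset.sum_mul]
      ring
    rw [e1, WW_cast, hsum]
    ring
  set V : Matrix (Fin m) (Fin 2) F := Matrix.of fun j i => if i = 0 then β j else -1 with hV
  set W : Matrix (Fin 2) (Fin m) F := Matrix.of fun i j => if i = 0 then x else y + xv p m F j * w
    with hW
  have hM : (Matrix.of fun j k : Fin m => x + Bm p m F j k + xv p m F j * y
      + xv p m F j * xv p m F k * w) = Bm p m F * (1 + V * W) := by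
    rw [Matrix.mul_add, Matrix.mul_one, ← Matrix.mul_assoc]
    ext j k
    rw [Matrix.add_apply, Matrix.mul_apply (M := Bm p m F * V), Fin.sum_univ_two, Matrix.mul_apply,
      Matrix.mul_apply, hV, hW]
    simp only [Matrix.of_apply, if_true, show ((1 : Fin 2) = 0) = False by simp, if_false]
    rw [hBβ]
    simp only [mul_neg, mul_one, Finset.sum_neg_distrib]
    rw [row_B hm]
    ring
  have hWV : ((1 : Matrix (Fin 2) (Fin 2) F) + W * V) =
      !![1 - x * S, - x * m; - y * S + w * ((((WW p m : ℤ) : F) - 2 * S ^ 2) / p), 1 - m * y - w * S] := by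
    ext i j
    fin_cases i <;> fin_cases j <;>
      simp only [Matrix.add_apply, Matrix.mul_apply, hV, hW, Matrix.of_apply, Fin.zero_eta, Fin.isValue,
        Matrix.cons_val', Matrix.cons_val_zero, Matrix.cons_val_one, if_true, Fin.mk_one,
        Matrix.cons_val_fin_one]
    · rw [← Finset.mul_sum, h1β]
      simp
      ring
    · simp
      ring
    · have e : ∀ k : Fin m, (if (1 : Fin 2) = 0 then x else y + xv p m F k * w) * β k =
          y * β k + w * (xv p m F k * β k) := by
        intro k
        rw [if_neg (by decide)]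
        ring
      rw [Finset.sum_congr rfl (fun k _ => e k), Finset.sum_add_distrib, ← Finset.mul_sum,
        ← Finset.mul_sum, h1β, hχβ]
      simp
    · have e : ∀ k : Fin m, (if (1 : Fin 2) = 0 then x else y + xv p m F k * w) *
          (if (1 : Fin 2) = 0 then β k else -1) = -y + (-w) * xv p m F k := by
        intro k
        rw [if_neg (by decide), if_neg (by decide)]
        ring
      rw [Finset.sum_congr rfl (fun k _ => e k), Finset.sum_add_distrib, ← Finset.mul_sum, hsum]
      simp
      ring
  rw [hM, Matrix.det_mul, Matrix.det_one_add_mul_comm, hWV, Matrix.det_fin_two_of]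
  congr 1
  push_cast
  field_simp
  rw [← hS, hpm]
  ring

/-- the half sum and the class number -/
lemma half_sum (p : ℕ) [Fact p.Prime] (h5 : 5 ≤ p) (h3 : p % 4 = 3) (m : ℕ) (hm : p = 2 * m + 1)
    (K : Type) [Field K] [NumberField K] (h2 : finrank ℚ K = 2) (β : K) (hβ : β ^ 2 = -(p : K)) :
    ∑ j, xv p m ℤ j = (2 - q p 2) * (classNumber K : ℤ) := by
  have h1 := Pool.Agent.R441.CN.classNumber_three h5 h3 K h2 β hβ
  have h4 := Pool.Agent.R343.CFP.S_T p h3
  have h6 := Pool.Agent.R343.CFP.S_range p m hm (by omega)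
  have h7 : ∑ j, xv p m ℤ j = Pool.Agent.R343.CFP.S p := by
    rw [h6, ← Fin.sum_univ_eq_sum_range (fun s => jacobiSym ((s + 1 : ℕ) : ℤ) p)]
    apply Finset.sum_congr rfl
    intro j _
    rw [← jacobiSym.legendreSym.to_jacobiSym]
    simp only [xv, R945.LD.J, Int.cast_id]
    unfold legendreSym
    push_cast
    rfl
  have h8 : jacobiSym 2 p = q p 2 := by
    rw [← jacobiSym.legendreSym.to_jacobiSym]
    unfold legendreSym
    push_cast
    rfl
  rw [h7]
  have hp0 : (p : ℤ) ≠ 0 := by omega
  apply mul_left_cancel₀ hp0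
  rw [h4, h8]
  linear_combination (-(2 - q p 2)) * h1

end Pool.Agent.H592LD
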